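import Pool.Agent.Helper99.Ram.Reduce

set_option autoImplicit false

/-!
# Covering and lower bounds for the Gaussian and the Eisenstein integers
-/

namespace Pool.Agent.Helper99.Ram

open Complex MeasureTheory Topology
open Pool.Agent.Helper10.Ram

/-! ## real-variable lemmas -/

theorem concave_aux {C A B s T r : ℝ} (hB : 0 ≤ B) (h1 : s ≤ r) (h2 : r < T)
    (hs : 0 ≤ C * s - A - B * s ^ 2) (hT : 0 ≤ C * T - A - B * T ^ 2) :
    0 ≤ C * r - A - B * r ^ 2 := by
  have h3 : 0 < T - s := by linarith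
  have key : (T - s) * (C * r - A - B * r ^ 2) = (T - r) * (C * s - A - B * s ^ 2)
      + (r - s) * (C * T - A - B * T ^ 2) + B * ((r - s) * (T - r) * (T - s)) := by ring
  by_contra hneg
  have h4 : (T - s) * (C * r - A - B * r ^ 2) < 0 :=
    mul_neg_of_pos_of_neg h3 (not_le.1 hneg)
  have h5 : 0 ≤ (T - r) * (C * s - A - B * s ^ 2) := mul_nonneg (by linarith) hs
  have h6 : 0 ≤ (r - s) * (C * T - A - B * T ^ 2) := mul_nonneg (by linarith) hT
  have h7 : 0 ≤ B * ((r - s) * (T - r) * (T - s)) :=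
    mul_nonneg hB (mul_nonneg (mul_nonneg (by linarith) (by linarith)) h3.le)
  linarith

/-- `s = √(1 - x0)` -/
theorem start_pt {x0 r : ℝ} (hr : 0 < r) (hx : x0 ≤ 1) (h : 1 ≤ x0 + r ^ 2) :
    ∃ s : ℝ, 0 ≤ s ∧ s ^ 2 = 1 - x0 ∧ s ≤ r := by
  refine ⟨Real.sqrt (1 - x0), Real.sqrt_nonneg _, Real.sq_sqrt (by linarith), ?_⟩
  rw [Real.sqrt_le_left hr.le]
  linarith

/-- if `k² s² ≥ l²` then `k s ≥ l` -/
theorem le_of_sq {k s l : ℝ} (hk : 0 ≤ k) (hs : 0 ≤ s) (h : l ^ 2 ≤ k ^ 2 * s ^ 2) :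
    l ≤ k * s := by
  apply le_of_sq_le_sq' (mul_nonneg hk hs)
  rw [mul_pow]
  exact h
where
  le_of_sq_le_sq' {a b : ℝ} (hb : 0 ≤ b) (h : a ^ 2 ≤ b ^ 2) : a ≤ b := by
    exact le_of_abs_le (abs_le_of_sq_le_sq h hb)

/-- five rows, Gaussian integers -/
theorem gauss_five {X Y r : ℝ} (hX : X ≤ 1 / 2) (hY : Y ≤ 1 / 2)
    (ht : 892 / 1000 ≤ X + Y) (hr : 0 < r) (h : 1 ≤ X ^ 2 + Y ^ 2 + r ^ 2)
    (hr1 : r < 115 / 100) :
    5 + 4 * (X ^ 2 + Y ^ 2) - 4 * (X + Y) + 4 * r ^ 2 ≤ (8 - 1336 / 1780) * r := by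
  have hx0 : X ^ 2 + Y ^ 2 ≤ 1 / 4 + (X + Y - 1 / 2) ^ 2 := by
    nlinarith [mul_nonneg (sub_nonneg.2 hX) (sub_nonneg.2 hY)]
  have ht1 : X + Y ≤ 1 := by linarith
  set t := X + Y with htdef
  set x0 := X ^ 2 + Y ^ 2 with hx0def
  have hx1 : x0 ≤ 1 := by nlinarith
  obtain ⟨s, hs0, hs2, hsr⟩ := start_pt hr hx1 h
  have := concave_aux (C := 8 - 1336 / 1780) (A := 5 + 4 * x0 - 4 * t) (B := 4) (s := s)
    (T := 115 / 100) (r := r) (by norm_num) hsr hr1 ?_ ?_
  · linarith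
  · rw [hs2]
    have : 9 - 4 * t ≤ (8 - 1336 / 1780) * s := by
      apply le_of_sq (by norm_num) hs0
      rw [hs2]
      nlinarith [mul_nonneg (sub_nonneg.2 ht) (sub_nonneg.2 ht1)]
    linarith
  · nlinarith [mul_nonneg (sub_nonneg.2 ht) (sub_nonneg.2 ht1)]

/-- three rows, Gaussian integers -/
theorem gauss_three {X Y r : ℝ} (hX : X ≤ 1 / 2) (hY0 : 0 ≤ Y) (hYX : Y ≤ X)
    (ht : X + Y ≤ 892 / 1000) (hr : 0 < r) (h : 1 ≤ X ^ 2 + Y ^ 2 + r ^ 2)
    (hr1 : r < 115 / 100) :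
    2 + 2 * (X ^ 2 + Y ^ 2) - 2 * X + 2 * r ^ 2 ≤ (48 / 10 - 1336 / 1780) * r := by
  have hX0 : 0 ≤ X := hY0.trans hYX
  have hxm : X ^ 2 + Y ^ 2 ≤ X := by nlinarith
  set x0 := X ^ 2 + Y ^ 2 with hx0def
  have hx1 : x0 ≤ 1 := by nlinarith
  obtain ⟨s, hs0, hs2, hsr⟩ := start_pt hr hx1 h
  have := concave_aux (C := 48 / 10 - 1336 / 1780) (A := 2 + 2 * x0 - 2 * X) (B := 2) (s := s)
    (T := 115 / 100) (r := r) (by norm_num) hsr hr1 ?_ ?_
  · linarith
  · rw [hs2]
    have : 4 - 2 * X ≤ (48 / 10 - 1336 / 1780) * s := by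
      apply le_of_sq (by norm_num) hs0
      rw [hs2]
      rcases le_total X (446 / 1000) with hc | hc
      · have hle : x0 ≤ 2 * X ^ 2 := by nlinarith
        nlinarith [mul_nonneg hX0 (sub_nonneg.2 hc)]
      · have hY1 : Y ≤ 892 / 1000 - X := by linarith
        have hle : x0 ≤ X ^ 2 + (892 / 1000 - X) ^ 2 := by
          have : Y ^ 2 ≤ (892 / 1000 - X) ^ 2 := pow_le_pow_left₀ hY0 hY1 2
          linarith
        nlinarith [mul_nonneg (sub_nonneg.2 hc) (sub_nonneg.2 hX)]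
    linarith
  · nlinarith

/-- two rows, Eisenstein integers -/
theorem eis_two {x0 r : ℝ} (hx : x0 ≤ 1 / 4) (hr : 0 < r) (h : 1 ≤ x0 + r ^ 2)
    (hr1 : r < 1104 / 1000) :
    1 + x0 + r ^ 2 ≤ (282 / 100 - 82 / 162) * r := by
  obtain ⟨s, hs0, hs2, hsr⟩ := start_pt hr (by linarith) h
  have := concave_aux (C := 282 / 100 - 82 / 162) (A := 1 + x0) (B := 1) (s := s)
    (T := 1104 / 1000) (r := r) (by norm_num) hsr hr1 ?_ ?_
  · linarith
  · rw [hs2]
    have : 2 ≤ (282 / 100 - 82 / 162) * s := by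
      apply le_of_sq (by norm_num) hs0
      rw [hs2]
      nlinarith
    linarith
  · nlinarith

/-- three rows, Eisenstein integers -/
theorem eis_three {x0 w r : ℝ} (hx : 1 / 4 ≤ x0) (hw0 : 0 ≤ w) (hw : 3 * x0 ≤ w ^ 2)
    (hw1 : w ≤ 1) (hr : 0 < r) (h : 1 ≤ x0 + r ^ 2) (hr1 : r < 1104 / 1000) :
    2 + 2 * x0 - w + 2 * r ^ 2 ≤ (423 / 100 - 82 / 162) * r := by
  have hw2 : 866 / 1000 ≤ w := by
    by_contra hc
    have hc' : w < 866 / 1000 := not_le.1 hc
    nlinarith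
  obtain ⟨s, hs0, hs2, hsr⟩ := start_pt hr (by nlinarith) h
  have := concave_aux (C := 423 / 100 - 82 / 162) (A := 2 + 2 * x0 - w) (B := 2) (s := s)
    (T := 1104 / 1000) (r := r) (by norm_num) hsr hr1 ?_ ?_
  · linarith
  · rw [hs2]
    have : 4 - w ≤ (423 / 100 - 82 / 162) * s := by
      apply le_of_sq (by norm_num) hs0
      rw [hs2]
      nlinarith [mul_nonneg (sub_nonneg.2 hw2) (sub_nonneg.2 hw1)]
    linarith
  · nlinarith [mul_nonneg (sub_nonneg.2 hw2) (sub_nonneg.2 hw1)]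

/-- three numbers with zero sum: one of them has a large square -/
theorem three_max {a b c S : ℝ} (h : a + b + c = 0) (hS : a ^ 2 + b ^ 2 + c ^ 2 = 2 * S) :
    S ≤ a ^ 2 ∨ S ≤ b ^ 2 ∨ S ≤ c ^ 2 := by
  by_contra hcon
  push Not at hcon
  obtain ⟨h1, h2, h3⟩ := hcon
  have hc : c = -a - b := by linarith
  subst hc
  have e1 : a * b + (a ^ 2 + b ^ 2) = S := by nlinarith
  have p1 : 0 < b * (a + b) := by nlinarith
  have p2 : 0 < a * (a + b) := by nlinarith
  have p3 : a * b < 0 := by nlinarith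
  have := mul_pos p1 p2
  nlinarith [sq_nonneg (a + b)]

/-! ## the reduced domain -/

theorem I_mem : I ∈ intRing I := Subring.subset_closure rfl
theorem omega_mem : omega ∈ intRing omega := Subring.subset_closure rfl

theorem re_bounds {R : Subring ℂ} {z : ℂ} (h : ∀ y ∈ R, ‖z‖ ≤ ‖z - y‖) :
    |z.re| ≤ 1 / 2 := by
  have h1 := two_re_le h R.one_mem norm_one
  have h2 := two_re_le h (R.neg_mem R.one_mem) (by rw [norm_neg, norm_one])
  simp only [map_one, mul_one, map_neg, mul_neg, neg_re] at h1 h2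
  rw [abs_le]
  constructor <;> linarith

theorem gauss_bounds {z : ℂ} (h : ∀ y ∈ intRing I, ‖z‖ ≤ ‖z - y‖) :
    |z.re| ≤ 1 / 2 ∧ |z.im| ≤ 1 / 2 := by
  refine ⟨re_bounds h, ?_⟩
  have h1 := two_re_le h I_mem norm_I
  have h2 := two_re_le h ((intRing I).neg_mem I_mem) (by rw [norm_neg, norm_I])
  simp only [conj_I, mul_neg, neg_re, mul_re, I_re, I_im, mul_zero, mul_one, map_neg,
    zero_sub, neg_neg] at h1 h2
  rw [abs_le]
  constructor <;> linarith

theorem normsq_eq (z : ℂ) : ‖z‖ ^ 2 = z.re ^ 2 + z.im ^ 2 := by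
  rw [← Complex.normSq_eq_norm_sq, Complex.normSq_apply]
  ring

theorem covers_gauss : Covers (intRing I) 1 (7 / 10) := by
  intro p hp
  obtain ⟨γ, hγ, h1, h2⟩ := reduce niceRing_gauss hp
  refine ⟨γ, hγ, ?_⟩
  set q := act γ p with hq
  have hqU : q ∈ UH := act_mem' γ hp
  have hq2 : 0 < q.2 := hqU
  obtain ⟨b1, b2⟩ := gauss_bounds h1
  have h3 := outside hqU h2 (intRing I).zero_mem
  rw [sub_zero, normsq_eq] at h3
  have c1 : q.1.re ^ 2 ≤ 1 / 4 := by
    have := sq_le_sq' (abs_le.1 b1).1 (abs_le.1 b1).2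
    linarith
  have c2 : q.1.im ^ 2 ≤ 1 / 4 := by
    have := sq_le_sq' (abs_le.1 b2).1 (abs_le.1 b2).2
    linarith
  constructor
  · have : ‖q.1‖ ^ 2 ≤ 1 ^ 2 := by
      rw [normsq_eq]
      linarith
    exact le_of_abs_le (abs_le_of_sq_le_sq this zero_le_one)
  · by_contra hc
    have hc' : q.2 < 7 / 10 := not_le.1 hc
    nlinarith

theorem norm_omega : ‖omega‖ = 1 := by
  have h : ‖omega‖ ^ 2 = 1 := by
    rw [normsq_eq, omega_re, omega_im]
    have := sqrt3_sq
    linear_combination (1 / 4) * this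
  exact (pow_eq_one_iff_of_nonneg (norm_nonneg _) two_ne_zero).1 h

theorem norm_omega_sub : ‖omega - 1‖ = 1 := by
  have h : ‖omega - 1‖ ^ 2 = 1 := by
    rw [normsq_eq, sub_re, sub_im, omega_re, omega_im, one_re, one_im]
    have := sqrt3_sq
    linear_combination (1 / 4) * this
  exact (pow_eq_one_iff_of_nonneg (norm_nonneg _) two_ne_zero).1 h

theorem omega_sub_mem : omega - 1 ∈ intRing omega :=
  (intRing omega).sub_mem omega_mem (intRing omega).one_mem

/-- a unit of norm one in a good direction -/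
theorem eis_dir {z : ℂ} (h : ∀ y ∈ intRing omega, ‖z‖ ≤ ‖z - y‖) :
    ∃ e ∈ intRing omega, ‖e‖ = 1 ∧ 0 ≤ 2 * (z * (starRingEnd ℂ) e).re ∧
      2 * (z * (starRingEnd ℂ) e).re ≤ 1 ∧ 3 * ‖z‖ ^ 2 ≤ (2 * (z * (starRingEnd ℂ) e).re) ^ 2 := by
  have main : ∃ e ∈ intRing omega, ‖e‖ = 1 ∧
      3 * ‖z‖ ^ 2 ≤ (2 * (z * (starRingEnd ℂ) e).re) ^ 2 := by
    have e1 : (z * (starRingEnd ℂ) omega).re = z.re * (1 / 2) + z.im * (Real.sqrt 3 / 2) := by
      rw [mul_re, conj_re, conj_im, omega_re, omega_im]; ring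
    have e2 : (z * (starRingEnd ℂ) (omega - 1)).re
        = -z.re * (1 / 2) + z.im * (Real.sqrt 3 / 2) := by
      rw [mul_re, conj_re, conj_im, sub_re, sub_im, omega_re, omega_im, one_re, one_im]; ring
    have e0 : (z * (starRingEnd ℂ) 1).re = z.re := by simp
    rcases three_max (a := 2 * (z * (starRingEnd ℂ) 1).re)
        (b := -(2 * (z * (starRingEnd ℂ) omega).re))
        (c := 2 * (z * (starRingEnd ℂ) (omega - 1)).re) (S := 3 * ‖z‖ ^ 2)
        (by rw [e0, e1, e2]; ring)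
        (by
          rw [e0, e1, e2, normsq_eq]
          have := sqrt3_sq
          linear_combination (2 * z.im ^ 2) * this) with hm | hm | hm
    · exact ⟨1, (intRing omega).one_mem, norm_one, hm⟩
    · exact ⟨omega, omega_mem, norm_omega, by rw [neg_sq] at hm; exact hm⟩
    · exact ⟨omega - 1, omega_sub_mem, norm_omega_sub, hm⟩
  obtain ⟨e, he, he1, hsq⟩ := main
  rcases le_total 0 (2 * (z * (starRingEnd ℂ) e).re) with hp | hp
  · exact ⟨e, he, he1, hp, two_re_le h he he1, hsq⟩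
  · have hneg : (z * (starRingEnd ℂ) (-e)).re = -(z * (starRingEnd ℂ) e).re := by
      rw [map_neg, mul_neg, neg_re]
    have hn := two_re_le h ((intRing omega).neg_mem he) (by rw [norm_neg, he1])
    refine ⟨-e, (intRing omega).neg_mem he, by rw [norm_neg, he1], ?_, hn, ?_⟩
    · rw [hneg]; linarith
    · rw [hneg]
      have : (2 * -(z * (starRingEnd ℂ) e).re) ^ 2 = (2 * (z * (starRingEnd ℂ) e).re) ^ 2 := by
        ring
      rw [this]
      exact hsq

theorem covers_eisenstein : Covers (intRing omega) 1 (8 / 10) := by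
  intro p hp
  obtain ⟨γ, hγ, h1, h2⟩ := reduce niceRing_eisenstein hp
  refine ⟨γ, hγ, ?_⟩
  set q := act γ p with hq
  have hqU : q ∈ UH := act_mem' γ hp
  have hq2 : 0 < q.2 := hqU
  obtain ⟨e, he, he1, w0, w1, hw⟩ := eis_dir h1
  have h3 := outside hqU h2 (intRing omega).zero_mem
  rw [sub_zero] at h3
  have h4 : 3 * ‖q.1‖ ^ 2 ≤ 1 := by nlinarith
  constructor
  · have : ‖q.1‖ ^ 2 ≤ 1 ^ 2 := by linarith
    exact le_of_abs_le (abs_le_of_sq_le_sq this zero_le_one)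
  · by_contra hc
    have hc' : q.2 < 8 / 10 := not_le.1 hc
    nlinarith

/-! ## the lower bounds -/

/-- the generic lower bound -/
theorem lower_generic {R : Subring ℂ} {c s T M : ℝ} (U : Finset ℂ)
    (hU : ∀ e ∈ U, e ∈ R ∧ e⁻¹ ∈ R ∧ ‖e‖ = 1) {q : Pt} (hq : q ∈ UH)
    (hmax : ∀ v ∈ Prim R, 1 / q.2 ≤ uval v q)
    (hD : q.2 < T → ∃ X : Finset ℂ, (∀ x ∈ X, x ∈ R) ∧
      M ≤ s * ((c - 1 / q.2) + ∑ x ∈ X, (c - (‖q.1 - x‖ ^ 2 + q.2 ^ 2) / q.2))) :
    ENNReal.ofReal (U.card * M) ≤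
      ∑' v : Prim R, ENNReal.ofReal (Qf c s T M (1 / uval v q)) := by
  have hq2 : 0 < q.2 := hq
  have hcard : ENNReal.ofReal (U.card * M) = (U.card : ENNReal) * ENNReal.ofReal M := by
    rw [ENNReal.ofReal_mul (Nat.cast_nonneg _), ENNReal.ofReal_natCast]
  rw [hcard]
  rcases lt_or_ge q.2 T with hlt | hge
  · obtain ⟨X, hX, hM⟩ := hD hlt
    refine le_trans ?_ (lower_sum U X hU hX (fun u => ENNReal.ofReal (Qf c s T M (1 / u))) q)
    refine mul_le_mul_right ?_ _
    have hQ : ∀ u : ℝ, 1 / q.2 ≤ u → s * (c - u) ≤ Qf c s T M (1 / u) ∧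
        0 ≤ Qf c s T M (1 / u) := by
      intro u hu
      have hu0 : 0 < u := lt_of_lt_of_le (by positivity) hu
      have h1 : 1 / u < T := by
        have : 1 / u ≤ q.2 := by
          rw [div_le_iff₀ hu0]
          rw [div_le_iff₀ hq2] at hu
          linarith
        exact lt_of_le_of_lt this hlt
      unfold Qf
      rw [if_pos h1, one_div_one_div]
      exact ⟨le_max_right _ _, le_max_left _ _⟩
    have hrow : ∀ x ∈ X, 1 / q.2 ≤ (‖q.1 - x‖ ^ 2 + q.2 ^ 2) / q.2 := by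
      intro x hx
      have := hmax _ (prim_one_neg (hX x hx))
      rwa [uval_one_neg] at this
    rw [← ENNReal.ofReal_sum_of_nonneg (fun x hx => (hQ _ (hrow x hx)).2),
      ← ENNReal.ofReal_add (hQ _ le_rfl).2 (Finset.sum_nonneg fun x hx => (hQ _ (hrow x hx)).2)]
    apply ENNReal.ofReal_le_ofReal
    refine hM.trans ?_
    rw [mul_add, Finset.mul_sum]
    exact add_le_add (hQ _ le_rfl).1 (Finset.sum_le_sum fun x hx => (hQ _ (hrow x hx)).1)
  · refine le_trans ?_ (lower_sum U ∅ hU (fun x hx => absurd hx (Finset.notMem_empty x))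
      (fun u => ENNReal.ofReal (Qf c s T M (1 / u))) q)
    refine mul_le_mul_right ?_ _
    rw [Finset.sum_empty, add_zero, one_div_one_div]
    unfold Qf
    rw [if_neg (not_lt.2 hge)]

/-- the units of the Gaussian integers -/
noncomputable def gU : Finset ℂ := {1, -1, I, -I}

theorem gU_card : gU.card = 4 := by
  have h1 : (1 : ℂ) ∉ ({-1, I, -I} : Finset ℂ) := by
    simp only [Finset.mem_insert, Finset.mem_singleton, Complex.ext_iff]
    norm_num
  have h2 : (-1 : ℂ) ∉ ({I, -I} : Finset ℂ) := by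
    simp only [Finset.mem_insert, Finset.mem_singleton, Complex.ext_iff]
    norm_num
  have h3 : (I : ℂ) ∉ ({-I} : Finset ℂ) := by
    simp only [Finset.mem_singleton, Complex.ext_iff]
    norm_num
  unfold gU
  rw [Finset.card_insert_of_notMem h1, Finset.card_insert_of_notMem h2,
    Finset.card_insert_of_notMem h3, Finset.card_singleton]

theorem gU_unit : ∀ e ∈ gU, e ∈ intRing I ∧ e⁻¹ ∈ intRing I ∧ ‖e‖ = 1 := by
  intro e he
  unfold gU at he
  simp only [Finset.mem_insert, Finset.mem_singleton] at he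
  have hI := I_mem
  have hI' := (intRing I).neg_mem I_mem
  have h1 := (intRing I).one_mem
  have h1' := (intRing I).neg_mem h1
  rcases he with rfl | rfl | rfl | rfl
  · exact ⟨h1, by rwa [inv_one], norm_one⟩
  · exact ⟨h1', by rwa [inv_neg, inv_one], by rw [norm_neg, norm_one]⟩
  · exact ⟨hI, by rwa [inv_I], norm_I⟩
  · exact ⟨hI', by rwa [inv_neg, inv_I, neg_neg], by rw [norm_neg, norm_I]⟩

/-- the units of the Eisenstein integers -/
noncomputable def eU : Finset ℂ := {1, -1, omega, -omega, omega - 1, 1 - omega}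

theorem eU_card : eU.card = 6 := by
  have hs : (0 : ℝ) < Real.sqrt 3 := Real.sqrt_pos.2 (by norm_num)
  have hh : Real.sqrt 3 / 2 ≠ 0 := by positivity
  have hneq : Real.sqrt 3 / 2 ≠ -(Real.sqrt 3 / 2) := by
    intro h; linarith [half_pos hs]
  have hneq' : -(Real.sqrt 3 / 2) ≠ Real.sqrt 3 / 2 := hneq.symm
  have h1 : (1 : ℂ) ∉ ({-1, omega, -omega, omega - 1, 1 - omega} : Finset ℂ) := by
    simp only [Finset.mem_insert, Finset.mem_singleton, Complex.ext_iff, neg_re, neg_im, sub_re,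
      sub_im, one_re, one_im, omega_re, omega_im]
    norm_num
  have h2 : (-1 : ℂ) ∉ ({omega, -omega, omega - 1, 1 - omega} : Finset ℂ) := by
    simp only [Finset.mem_insert, Finset.mem_singleton, Complex.ext_iff, neg_re, neg_im, sub_re,
      sub_im, one_re, one_im, omega_re, omega_im]
    norm_num
  have h3 : omega ∉ ({-omega, omega - 1, 1 - omega} : Finset ℂ) := by
    simp only [Finset.mem_insert, Finset.mem_singleton, Complex.ext_iff, neg_re, neg_im, sub_re,
      sub_im, one_re, one_im, omega_re, omega_im]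
    norm_num
    exact fun h => absurd h (by linarith)
  have h4 : -omega ∉ ({omega - 1, 1 - omega} : Finset ℂ) := by
    simp only [Finset.mem_insert, Finset.mem_singleton, Complex.ext_iff, neg_re, neg_im, sub_re,
      sub_im, one_re, one_im, omega_re, omega_im]
    norm_num
    exact fun h => absurd h (by linarith)
  have h5 : omega - 1 ∉ ({1 - omega} : Finset ℂ) := by
    simp only [Finset.mem_singleton, Complex.ext_iff, sub_re,
      sub_im, one_re, one_im, omega_re, omega_im]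
    norm_num
  unfold eU
  rw [Finset.card_insert_of_notMem h1, Finset.card_insert_of_notMem h2,
    Finset.card_insert_of_notMem h3, Finset.card_insert_of_notMem h4,
    Finset.card_insert_of_notMem h5, Finset.card_singleton]

theorem omega_inv : omega⁻¹ = 1 - omega := by
  have h : omega * (1 - omega) = 1 := by
    have := omega_sq
    linear_combination -this
  exact inv_eq_of_mul_eq_one_right h

theorem omega_inv' : (1 - omega)⁻¹ = omega := by
  rw [← omega_inv, inv_inv]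

theorem eU_unit : ∀ e ∈ eU, e ∈ intRing omega ∧ e⁻¹ ∈ intRing omega ∧ ‖e‖ = 1 := by
  intro e he
  unfold eU at he
  simp only [Finset.mem_insert, Finset.mem_singleton] at he
  have hw := omega_mem
  have hw' := (intRing omega).neg_mem omega_mem
  have h1 := (intRing omega).one_mem
  have h1' := (intRing omega).neg_mem h1
  have h2 := (intRing omega).sub_mem hw h1
  have h3 := (intRing omega).sub_mem h1 hw
  have e1 : -(1 - omega) = omega - 1 := by ring
  have e2 : -(omega - 1) = 1 - omega := by ring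
  have hn : ‖1 - omega‖ = 1 := by rw [← e2, norm_neg, norm_omega_sub]
  rcases he with rfl | rfl | rfl | rfl | rfl | rfl
  · exact ⟨h1, by rwa [inv_one], norm_one⟩
  · exact ⟨h1', by rwa [inv_neg, inv_one], by rw [norm_neg, norm_one]⟩
  · exact ⟨hw, by rwa [omega_inv], norm_omega⟩
  · exact ⟨hw', by rwa [inv_neg, omega_inv, e1], by rw [norm_neg, norm_omega]⟩
  · exact ⟨h2, by rwa [← e1, inv_neg, omega_inv'], norm_omega_sub⟩
  · exact ⟨h3, by rwa [omega_inv'], hn⟩

theorem reduced_lower_gauss {q : Pt} (hq : q ∈ UH)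
    (h1 : ∀ y ∈ intRing I, ‖q.1‖ ≤ ‖q.1 - y‖)
    (h2 : ∀ v ∈ Prim (intRing I), 1 / q.2 ≤ uval v q) (hlt : q.2 < 115 / 100) :
    ∃ X : Finset ℂ, (∀ x ∈ X, x ∈ intRing I) ∧
      (167 / 125 : ℝ) ≤ 178 / 100 * ((8 / 5 - 1 / q.2)
        + ∑ x ∈ X, (8 / 5 - (‖q.1 - x‖ ^ 2 + q.2 ^ 2) / q.2)) := by
  have hq2 : 0 < q.2 := hq
  obtain ⟨b1, b2⟩ := gauss_bounds h1
  have h3 := outside hq h2 (intRing I).zero_mem
  rw [sub_zero, normsq_eq] at h3
  obtain ⟨z, r⟩ := q
  simp only at h1 h2 hlt hq2 b1 b2 h3 ⊢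
  -- signs
  obtain ⟨a, ha, haz⟩ : ∃ a : ℤ, (a = 1 ∨ a = -1) ∧ (a : ℝ) * z.re = |z.re| := by
    rcases le_total 0 z.re with h | h
    · exact ⟨1, Or.inl rfl, by rw [abs_of_nonneg h]; simp⟩
    · exact ⟨-1, Or.inr rfl, by rw [abs_of_nonpos h]; simp⟩
  obtain ⟨b, hb, hbz⟩ : ∃ b : ℤ, (b = 1 ∨ b = -1) ∧ (b : ℝ) * z.im = |z.im| := by
    rcases le_total 0 z.im with h | h
    · exact ⟨1, Or.inl rfl, by rw [abs_of_nonneg h]; simp⟩
    · exact ⟨-1, Or.inr rfl, by rw [abs_of_nonpos h]; simp⟩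
  have ha2 : (a : ℝ) ^ 2 = 1 := by rcases ha with rfl | rfl <;> norm_num
  have hb2 : (b : ℝ) ^ 2 = 1 := by rcases hb with rfl | rfl <;> norm_num
  have ha0 : (a : ℝ) ≠ 0 := by intro h; rw [h] at ha2; norm_num at ha2
  have hb0 : (b : ℝ) ≠ 0 := by intro h; rw [h] at hb2; norm_num at hb2
  have hX2 : z.re ^ 2 = |z.re| ^ 2 := (sq_abs _).symm
  have hY2 : z.im ^ 2 = |z.im| ^ 2 := (sq_abs _).symm
  have hX0 : 0 ≤ |z.re| := abs_nonneg _
  have hY0 : 0 ≤ |z.im| := abs_nonneg _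
  set X := |z.re|
  set Y := |z.im|
  have m1 : (⟨a, 0⟩ : ℂ) ∈ intRing I := by
    refine (mem_gauss _).2 ⟨a, 0, ?_⟩
    apply Complex.ext <;> simp
  have m2 : (⟨0, b⟩ : ℂ) ∈ intRing I := by
    refine (mem_gauss _).2 ⟨0, b, ?_⟩
    apply Complex.ext <;> simp
  have m3 : (⟨a, b⟩ : ℂ) ∈ intRing I := by
    refine (mem_gauss _).2 ⟨a, b, ?_⟩
    apply Complex.ext <;> simp
  have n0 : ‖z - 0‖ ^ 2 = X ^ 2 + Y ^ 2 := by
    rw [sub_zero, normsq_eq, hX2, hY2]
  have n1 : ‖z - ⟨a, 0⟩‖ ^ 2 = X ^ 2 + Y ^ 2 + 1 - 2 * X := by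
    rw [normsq_eq, sub_re, sub_im]
    simp only
    linear_combination hX2 + hY2 + ha2 - 2 * haz
  have n2 : ‖z - ⟨0, b⟩‖ ^ 2 = X ^ 2 + Y ^ 2 + 1 - 2 * Y := by
    rw [normsq_eq, sub_re, sub_im]
    simp only
    linear_combination hX2 + hY2 + hb2 - 2 * hbz
  have n3 : ‖z - ⟨a, b⟩‖ ^ 2 = X ^ 2 + Y ^ 2 + 2 - 2 * X - 2 * Y := by
    rw [normsq_eq, sub_re, sub_im]
    simp only
    linear_combination hX2 + hY2 + ha2 - 2 * haz + hb2 - 2 * hbz
  rw [hX2, hY2] at h3
  rcases le_total (892 / 1000) (X + Y) with ht | ht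
  · have key := gauss_five b1 b2 ht hq2 h3 hlt
    refine ⟨{0, ⟨a, 0⟩, ⟨0, b⟩, ⟨a, b⟩}, ?_, ?_⟩
    · intro x hx
      simp only [Finset.mem_insert, Finset.mem_singleton] at hx
      rcases hx with rfl | rfl | rfl | rfl
      · exact (intRing I).zero_mem
      · exact m1
      · exact m2
      · exact m3
    · have k1 : (0 : ℂ) ∉ ({⟨a, 0⟩, ⟨0, b⟩, ⟨a, b⟩} : Finset ℂ) := by
        simp only [Finset.mem_insert, Finset.mem_singleton, Complex.ext_iff, zero_re, zero_im]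
        rintro (⟨h, -⟩ | ⟨-, h⟩ | ⟨h, -⟩)
        · exact ha0 h.symm
        · exact hb0 h.symm
        · exact ha0 h.symm
      have k2 : (⟨a, 0⟩ : ℂ) ∉ ({⟨0, b⟩, ⟨a, b⟩} : Finset ℂ) := by
        simp only [Finset.mem_insert, Finset.mem_singleton, Complex.ext_iff]
        rintro (⟨h, -⟩ | ⟨-, h⟩)
        · exact ha0 h
        · exact hb0 h.symm
      have k3 : (⟨0, b⟩ : ℂ) ∉ ({⟨a, b⟩} : Finset ℂ) := by
        simp only [Finset.mem_singleton, Complex.ext_iff]
        rintro ⟨h, -⟩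
        exact ha0 h.symm
      rw [Finset.sum_insert k1, Finset.sum_insert k2, Finset.sum_insert k3,
        Finset.sum_singleton, n0, n1, n2, n3]
      have e : (8 / 5 - 1 / r + (8 / 5 - (X ^ 2 + Y ^ 2 + r ^ 2) / r +
          (8 / 5 - (X ^ 2 + Y ^ 2 + 1 - 2 * X + r ^ 2) / r +
          (8 / 5 - (X ^ 2 + Y ^ 2 + 1 - 2 * Y + r ^ 2) / r +
          (8 / 5 - (X ^ 2 + Y ^ 2 + 2 - 2 * X - 2 * Y + r ^ 2) / r)))))
          = 8 - (5 + 4 * (X ^ 2 + Y ^ 2) - 4 * (X + Y) + 4 * r ^ 2) / r := by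
        field_simp
        ring
      rw [e]
      have := (div_le_iff₀ hq2).2 key
      linarith
  · rcases le_total Y X with hYX | hYX
    · have key := gauss_three b1 hY0 hYX ht hq2 h3 hlt
      refine ⟨{0, ⟨a, 0⟩}, ?_, ?_⟩
      · intro x hx
        simp only [Finset.mem_insert, Finset.mem_singleton] at hx
        rcases hx with rfl | rfl
        · exact (intRing I).zero_mem
        · exact m1
      · have k1 : (0 : ℂ) ∉ ({⟨a, 0⟩} : Finset ℂ) := by
          simp only [Finset.mem_singleton, Complex.ext_iff, zero_re, zero_im]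
          rintro ⟨h, -⟩
          exact ha0 h.symm
        rw [Finset.sum_insert k1, Finset.sum_singleton, n0, n1]
        have e : (8 / 5 - 1 / r + (8 / 5 - (X ^ 2 + Y ^ 2 + r ^ 2) / r +
            (8 / 5 - (X ^ 2 + Y ^ 2 + 1 - 2 * X + r ^ 2) / r)))
            = 48 / 10 - (2 + 2 * (X ^ 2 + Y ^ 2) - 2 * X + 2 * r ^ 2) / r := by
          field_simp
          ring
        rw [e]
        have := (div_le_iff₀ hq2).2 key
        linarith
    · have key := gauss_three b2 hX0 hYX (by linarith) hq2 (by linarith) hlt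
      refine ⟨{0, ⟨0, b⟩}, ?_, ?_⟩
      · intro x hx
        simp only [Finset.mem_insert, Finset.mem_singleton] at hx
        rcases hx with rfl | rfl
        · exact (intRing I).zero_mem
        · exact m2
      · have k1 : (0 : ℂ) ∉ ({⟨0, b⟩} : Finset ℂ) := by
          simp only [Finset.mem_singleton, Complex.ext_iff, zero_re, zero_im]
          rintro ⟨-, h⟩
          exact hb0 h.symm
        rw [Finset.sum_insert k1, Finset.sum_singleton, n0, n2]
        have e : (8 / 5 - 1 / r + (8 / 5 - (X ^ 2 + Y ^ 2 + r ^ 2) / r +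
            (8 / 5 - (X ^ 2 + Y ^ 2 + 1 - 2 * Y + r ^ 2) / r)))
            = 48 / 10 - (2 + 2 * (Y ^ 2 + X ^ 2) - 2 * Y + 2 * r ^ 2) / r := by
          field_simp
          ring
        rw [e]
        have := (div_le_iff₀ hq2).2 key
        linarith

theorem lower_gauss {p : Pt} (hp : p ∈ UH) :
    ENNReal.ofReal (4 * (167 / 125)) ≤
      ∑' v : Prim (intRing I),
        ENNReal.ofReal (Qf (8 / 5) (178 / 100) (115 / 100) (167 / 125) (1 / uval v p)) := by
  obtain ⟨γ, hγ, h1, h2⟩ := reduce niceRing_gauss hp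
  rw [← tsum_act hγ hp
    (fun u => ENNReal.ofReal (Qf (8 / 5) (178 / 100) (115 / 100) (167 / 125) (1 / u)))]
  have := lower_generic (c := 8 / 5) (s := 178 / 100) (T := 115 / 100) (M := 167 / 125) gU
    gU_unit (act_mem' γ hp) h2 (reduced_lower_gauss (act_mem' γ hp) h1 h2)
  rw [gU_card] at this
  exact_mod_cast this

theorem reduced_lower_eisenstein {q : Pt} (hq : q ∈ UH)
    (h1 : ∀ y ∈ intRing omega, ‖q.1‖ ≤ ‖q.1 - y‖)
    (h2 : ∀ v ∈ Prim (intRing omega), 1 / q.2 ≤ uval v q) (hlt : q.2 < 1104 / 1000) :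
    ∃ X : Finset ℂ, (∀ x ∈ X, x ∈ intRing omega) ∧
      (41 / 50 : ℝ) ≤ 162 / 100 * ((141 / 100 - 1 / q.2)
        + ∑ x ∈ X, (141 / 100 - (‖q.1 - x‖ ^ 2 + q.2 ^ 2) / q.2)) := by
  have hq2 : 0 < q.2 := hq
  obtain ⟨e, he, he1, w0, w1, hw⟩ := eis_dir h1
  have h3 := outside hq h2 (intRing omega).zero_mem
  rw [sub_zero] at h3
  have he0 : e ≠ 0 := by
    intro h; rw [h] at he1; simp at he1
  have n1 := normsq_sub q.1 e
  rw [he1] at n1
  obtain ⟨z, r⟩ := q
  simp only at h1 h2 hlt hq2 w0 w1 hw h3 n1 ⊢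
  set w := 2 * (z * (starRingEnd ℂ) e).re
  set x0 := ‖z‖ ^ 2 with hx0
  rcases le_total x0 (1 / 4) with hc | hc
  · have key := eis_two hc hq2 h3 hlt
    refine ⟨{0}, ?_, ?_⟩
    · intro x hx
      rw [Finset.mem_singleton] at hx
      rw [hx]
      exact (intRing omega).zero_mem
    · rw [Finset.sum_singleton, sub_zero, ← hx0]
      have e : (141 / 100 - 1 / r + (141 / 100 - (x0 + r ^ 2) / r))
          = 282 / 100 - (1 + x0 + r ^ 2) / r := by
        field_simp
        ring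
      rw [e]
      have := (div_le_iff₀ hq2).2 key
      linarith
  · have key := eis_three hc w0 hw w1 hq2 h3 hlt
    refine ⟨{0, e}, ?_, ?_⟩
    · intro x hx
      simp only [Finset.mem_insert, Finset.mem_singleton] at hx
      rcases hx with rfl | rfl
      · exact (intRing omega).zero_mem
      · exact he
    · have k1 : (0 : ℂ) ∉ ({e} : Finset ℂ) := by
        rw [Finset.mem_singleton]
        exact he0.symm
      rw [Finset.sum_insert k1, Finset.sum_singleton, sub_zero, ← hx0, n1]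
      have e : (141 / 100 - 1 / r + (141 / 100 - (x0 + r ^ 2) / r +
          (141 / 100 - (x0 + 1 ^ 2 - w + r ^ 2) / r)))
          = 423 / 100 - (2 + 2 * x0 - w + 2 * r ^ 2) / r := by
        field_simp
        ring
      rw [e]
      have := (div_le_iff₀ hq2).2 key
      linarith

theorem lower_eisenstein {p : Pt} (hp : p ∈ UH) :
    ENNReal.ofReal (6 * (41 / 50)) ≤
      ∑' v : Prim (intRing omega),
        ENNReal.ofReal (Qf (141 / 100) (162 / 100) (1104 / 1000) (41 / 50) (1 / uval v p)) := by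
  obtain ⟨γ, hγ, h1, h2⟩ := reduce niceRing_eisenstein hp
  rw [← tsum_act hγ hp
    (fun u => ENNReal.ofReal (Qf (141 / 100) (162 / 100) (1104 / 1000) (41 / 50) (1 / u)))]
  have := lower_generic (c := 141 / 100) (s := 162 / 100) (T := 1104 / 1000) (M := 41 / 50) eU
    eU_unit (act_mem' γ hp) h2 (reduced_lower_eisenstein (act_mem' γ hp) h1 h2)
  rw [eU_card] at this
  exact_mod_cast this

end Pool.Agent.Helper99.Ram
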