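import Pool.Agent.Helper99.Ram.Lower

set_option autoImplicit false

/-!
# Lower bounds for the Gaussian and the Eisenstein integers, second set of constants
-/

namespace Pool.Agent.Helper99.Ram

open Complex MeasureTheory Topology
open Pool.Agent.Helper10.Ram

/-! ## real-variable lemmas -/

theorem low_sq {X a : ℝ} (hX : 0 ≤ X) (ha : 0 ≤ a) (h : a ^ 2 ≤ X ^ 2) : a ≤ X :=
  (pow_le_pow_iff_left₀ ha hX two_ne_zero).1 h

/-- a starting point at least one -/
theorem concave_aux' {C A B S T r : ℝ} (hB : 0 ≤ B) (h1 : S ≤ r) (h2 : r < T)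
    (hs : A + B * S ^ 2 ≤ C * S) (hT : A + B * T ^ 2 ≤ C * T) :
    A + B * r ^ 2 ≤ C * r := by
  have := concave_aux (C := C) (A := A) (B := B) (s := S) (T := T) (r := r) hB h1 h2
    (by linarith) (by linarith)
  linarith

theorem gauss_alt {X Y r : ℝ} (hX : X ≤ 1 / 2) (hY0 : 0 ≤ Y) (hYX : Y ≤ X)
    (hr : 0 < r) (h : 1 ≤ X ^ 2 + Y ^ 2 + r ^ 2) (hr1 : r < 106 / 100) :
    (1 + (X ^ 2 + Y ^ 2) + 1 * r ^ 2 ≤ (318 / 100 - 135 / 161) * r) ∨
    (2 + 2 * (X ^ 2 + Y ^ 2) - 2 * X + 2 * r ^ 2 ≤ (477 / 100 - 135 / 161) * r) ∨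
    (5 + 4 * (X ^ 2 + Y ^ 2) - 4 * (X + Y) + 4 * r ^ 2 ≤ (795 / 100 - 135 / 161) * r) := by
  have hX0 : 0 ≤ X := hY0.trans hYX
  have hY : Y ≤ 1 / 2 := hYX.trans hX
  have hxt : X ^ 2 + Y ^ 2 ≤ 1 / 4 + (X + Y - 1 / 2) ^ 2 := by
    nlinarith [mul_nonneg (sub_nonneg.2 hX) (sub_nonneg.2 hY)]
  have ht1 : X + Y ≤ 1 := by linarith
  have hx1 : X ^ 2 + Y ^ 2 ≤ 1 / 2 := by nlinarith
  have hX2 : X ^ 2 + Y ^ 2 ≤ 2 * X ^ 2 := by nlinarith
  rcases le_total 1 r with hr2 | hr2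
  · -- `1 ≤ r`
    rcases le_total (9 / 10) (X + Y) with ht | ht
    · right; right
      set t := X + Y
      set x0 := X ^ 2 + Y ^ 2
      refine concave_aux' (by norm_num) hr2 hr1 ?_ ?_
      · nlinarith [mul_nonneg (sub_nonneg.2 ht) (sub_nonneg.2 ht1)]
      · nlinarith [mul_nonneg (sub_nonneg.2 ht) (sub_nonneg.2 ht1)]
    · rcases le_total (X ^ 2 + Y ^ 2) (34 / 100) with hx | hx
      · left
        set x0 := X ^ 2 + Y ^ 2
        refine concave_aux' (by norm_num) hr2 hr1 ?_ ?_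
        · nlinarith
        · nlinarith
      · right; left
        have hX3 : 41 / 100 ≤ X := low_sq hX0 (by norm_num) (by linarith)
        have hY1 : Y ≤ 9 / 10 - X := by linarith
        have hYY : Y ^ 2 ≤ (9 / 10 - X) ^ 2 := pow_le_pow_left₀ hY0 hY1 2
        have key : 4 / 100 ≤ X - (X ^ 2 + Y ^ 2) := by
          rcases le_total X (45 / 100) with hc | hc
          · have := mul_nonneg (sub_nonneg.2 hX3) (sub_nonneg.2 hc)
            linarith [this, mul_self_nonneg X]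
          · have := mul_nonneg (sub_nonneg.2 hc) (sub_nonneg.2 hX)
            linarith [this]
        refine concave_aux' (by norm_num) hr2 hr1 ?_ ?_
        · linarith
        · linarith
  · -- `r ≤ 1`
    obtain ⟨s, hs0, hs2, hsr⟩ := start_pt hr (by linarith) h
    rcases eq_or_lt_of_le hr2 with hr3 | hr3
    · -- `r = 1`
      subst hr3
      rcases le_total (84 / 100) (X + Y) with ht | ht
      · right; right
        nlinarith [mul_nonneg (sub_nonneg.2 ht) (sub_nonneg.2 ht1)]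
      · rcases le_total (X ^ 2 + Y ^ 2) (27 / 100) with hx | hx
        · left
          linarith
        · right; left
          have hX3 : 36 / 100 ≤ X := low_sq hX0 (by norm_num) (by linarith)
          have hY1 : Y ≤ 84 / 100 - X := by linarith
          have hYY : Y ^ 2 ≤ (84 / 100 - X) ^ 2 := pow_le_pow_left₀ hY0 hY1 2
          have key : 35 / 1000 ≤ X - (X ^ 2 + Y ^ 2) := by
            rcases le_total X (42 / 100) with hc | hc
            · have := mul_nonneg (sub_nonneg.2 hX3) (sub_nonneg.2 hc)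
              linarith [this]
            · have := mul_nonneg (sub_nonneg.2 hc) (sub_nonneg.2 hX)
              linarith [this]
          linarith
    rcases le_total (84 / 100) (X + Y) with ht | ht
    · right; right
      set t := X + Y
      set x0 := X ^ 2 + Y ^ 2
      refine concave_aux' (by norm_num) hsr hr3 ?_ ?_
      · rw [hs2]
        have : 9 - 4 * t ≤ (795 / 100 - 135 / 161) * s := by
          apply le_of_sq (by norm_num) hs0
          rw [hs2]
          have hk : (505 / 10 : ℝ) ≤ (795 / 100 - 135 / 161) ^ 2 := by norm_num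
          refine le_trans ?_ (mul_le_mul_of_nonneg_right hk (by linarith : (0:ℝ) ≤ 1 - x0))
          have h5 := mul_nonneg (sub_nonneg.2 ht) (sub_nonneg.2 ht1)
          linarith [h5, hxt]
        linarith
      · nlinarith [mul_nonneg (sub_nonneg.2 ht) (sub_nonneg.2 ht1)]
    · rcases le_total (X ^ 2 + Y ^ 2) (27 / 100) with hx | hx
      · left
        set x0 := X ^ 2 + Y ^ 2
        refine concave_aux' (by norm_num) hsr hr3 ?_ ?_
        · rw [hs2]
          have : 2 ≤ (318 / 100 - 135 / 161) * s := by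
            apply le_of_sq (by norm_num) hs0
            rw [hs2]
            have hk : (548 / 100 : ℝ) ≤ (318 / 100 - 135 / 161) ^ 2 := by norm_num
            refine le_trans ?_ (mul_le_mul_of_nonneg_right hk (by linarith : (0:ℝ) ≤ 1 - x0))
            linarith
          linarith
        · linarith
      · right; left
        have hX3 : 36 / 100 ≤ X := low_sq hX0 (by norm_num) (by linarith)
        have hY1 : Y ≤ 84 / 100 - X := by linarith
        have hYY : Y ^ 2 ≤ (84 / 100 - X) ^ 2 := pow_le_pow_left₀ hY0 hY1 2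
        have key : 35 / 1000 ≤ X - (X ^ 2 + Y ^ 2) := by
          rcases le_total X (42 / 100) with hc | hc
          · have := mul_nonneg (sub_nonneg.2 hX3) (sub_nonneg.2 hc)
            linarith [this]
          · have := mul_nonneg (sub_nonneg.2 hc) (sub_nonneg.2 hX)
            linarith [this]
        refine concave_aux' (by norm_num) hsr hr3 ?_ ?_
        · rw [hs2]
          have : 4 - 2 * X ≤ (477 / 100 - 135 / 161) * s := by
            apply le_of_sq (by norm_num) hs0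
            rw [hs2]
            have hk : (1545 / 100 : ℝ) ≤ (477 / 100 - 135 / 161) ^ 2 := by norm_num
            refine le_trans ?_ (mul_le_mul_of_nonneg_right hk
              (by linarith : (0:ℝ) ≤ 1 - (X ^ 2 + Y ^ 2)))
            rcases le_total X (42 / 100) with hc | hc
            · have := mul_nonneg (sub_nonneg.2 hX3) (sub_nonneg.2 hc)
              linarith [this, hX2]
            · have := mul_nonneg (sub_nonneg.2 hc) (sub_nonneg.2 hX)
              linarith [this, hYY]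
          linarith
        · linarith

/-- two rows, Eisenstein integers -/
theorem eis_two2 {x0 r : ℝ} (hx : x0 ≤ 2 / 10) (hr : 0 < r) (h : 1 ≤ x0 + r ^ 2)
    (hr1 : r < 104 / 100) :
    1 + x0 + 1 * r ^ 2 ≤ (286 / 100 - 215 / 347) * r := by
  obtain ⟨s, hs0, hs2, hsr⟩ := start_pt hr (by linarith) h
  refine concave_aux' (by norm_num) hsr hr1 ?_ ?_
  · rw [hs2]
    have : 2 ≤ (286 / 100 - 215 / 347) * s := by
      apply le_of_sq (by norm_num) hs0
      rw [hs2]
      nlinarith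
    linarith
  · nlinarith

/-- three rows, Eisenstein integers -/
theorem eis_three2 {x0 w r : ℝ} (hx : 2 / 10 ≤ x0) (hx' : x0 ≤ 3 / 10) (hw0 : 0 ≤ w)
    (hw : 3 * x0 ≤ w ^ 2) (hw1 : w ≤ 1) (hr : 0 < r) (h : 1 ≤ x0 + r ^ 2)
    (hr1 : r < 104 / 100) :
    2 + 2 * x0 - w + 2 * r ^ 2 ≤ (429 / 100 - 215 / 347) * r := by
  have hw2 : 774 / 1000 ≤ w := by
    by_contra hc
    have hc' : w < 774 / 1000 := not_le.1 hc
    nlinarith
  obtain ⟨s, hs0, hs2, hsr⟩ := start_pt hr (by linarith) h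
  refine concave_aux' (by norm_num) hsr hr1 ?_ ?_
  · rw [hs2]
    have : 4 - w ≤ (429 / 100 - 215 / 347) * s := by
      apply le_of_sq (by norm_num) hs0
      rw [hs2]
      have hk : (1347 / 100 : ℝ) ≤ (429 / 100 - 215 / 347) ^ 2 := by norm_num
      refine le_trans ?_ (mul_le_mul_of_nonneg_right hk (by linarith : (0:ℝ) ≤ 1 - x0))
      rcases le_total w (98 / 100) with hc | hc
      · have h5 := mul_nonneg (sub_nonneg.2 hw2) (sub_nonneg.2 hc)
        linarith [h5, hw]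
      · have h5 : (4 - w) ^ 2 ≤ (302 / 100) ^ 2 := pow_le_pow_left₀ (by linarith) (by linarith) 2
        linarith
    linarith
  · rcases le_total w (948 / 1000) with hc | hc
    · have h5 := mul_nonneg (sub_nonneg.2 hw2) (sub_nonneg.2 hc)
      linarith [h5, hw]
    · linarith

/-- four rows, Eisenstein integers -/
theorem eis_four2 {x0 w v r : ℝ} (hx : 3 / 10 ≤ x0) (hw1 : w ≤ 1) (hvw : v ≤ w)
    (hv : w ≤ 2 * v) (hw0 : 0 ≤ w) (he : w ^ 2 - w * v + v ^ 2 = 3 * x0)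
    (hr : 0 < r) (h : 1 ≤ x0 + r ^ 2) (hr1 : r < 104 / 100) :
    3 + 3 * x0 - w - v + 3 * r ^ 2 ≤ (572 / 100 - 215 / 347) * r := by
  have hw2 : 94 / 100 ≤ w := by
    refine low_sq hw0 (by norm_num) ?_
    have h1 : 0 ≤ v * (w - v) := mul_nonneg (by linarith) (by linarith)
    linarith
  have hv2 : 88 / 100 ≤ v := by
    by_contra hc
    have hc' : v < 88 / 100 := not_le.1 hc
    have h1 : 0 ≤ (2 * v - w) * (1 - w) := mul_nonneg (by linarith) (by linarith)
    nlinarith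
  have h3 : 0 ≤ (1 - w) * (w - 94 / 100) := mul_nonneg (by linarith) (by linarith)
  have h4 : 0 ≤ (v - 88 / 100) * (w - v) := mul_nonneg (by linarith) (by linarith)
  have hx1 : x0 ≤ 1 / 3 := by linarith
  obtain ⟨s, hs0, hs2, hsr⟩ := start_pt hr (by linarith) h
  refine concave_aux' (by norm_num) hsr hr1 ?_ ?_
  · rw [hs2]
    have : 6 - w - v ≤ (572 / 100 - 215 / 347) * s := by
      apply le_of_sq (by norm_num) hs0
      rw [hs2]
      have hk : (2601 / 100 : ℝ) ≤ (572 / 100 - 215 / 347) ^ 2 := by norm_num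
      refine le_trans ?_ (mul_le_mul_of_nonneg_right hk (by linarith : (0:ℝ) ≤ 1 - x0))
      have h5 : 0 ≤ (w + v - 182 / 100) * (2 - (w + v)) :=
        mul_nonneg (by linarith) (by linarith)
      have h6 : x0 ≤ (88 / 100 * (w + v) - 76 / 100) / 3 := by linarith
      linarith
    linarith
  · linarith

/-! ## the lower bounds -/

/-- sums over small sets of rows -/
theorem rows_two {c r x0 : ℝ} {z : ℂ} (hr : 0 < r) (hz : ‖z‖ ^ 2 = x0) {K : ℝ}
    (h : 1 + x0 + 1 * r ^ 2 ≤ (2 * c - K) * r) :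
    K ≤ (c - 1 / r) + ∑ x ∈ ({0} : Finset ℂ), (c - (‖z - x‖ ^ 2 + r ^ 2) / r) := by
  rw [Finset.sum_singleton, sub_zero, hz]
  have e : (c - 1 / r + (c - (x0 + r ^ 2) / r)) = 2 * c - (1 + x0 + 1 * r ^ 2) / r := by
    field_simp
    ring
  rw [e]
  have := (div_le_iff₀ hr).2 h
  linarith

theorem rows_three {c r x0 w : ℝ} {z e : ℂ} (hr : 0 < r) (hz : ‖z‖ ^ 2 = x0) (he : e ≠ 0)
    (hze : ‖z - e‖ ^ 2 = x0 + 1 - w) {K : ℝ}
    (h : 2 + 2 * x0 - w + 2 * r ^ 2 ≤ (3 * c - K) * r) :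
    K ≤ (c - 1 / r) + ∑ x ∈ ({0, e} : Finset ℂ), (c - (‖z - x‖ ^ 2 + r ^ 2) / r) := by
  have k1 : (0 : ℂ) ∉ ({e} : Finset ℂ) := by
    rw [Finset.mem_singleton]
    exact he.symm
  rw [Finset.sum_insert k1, Finset.sum_singleton, sub_zero, hz, hze]
  have e : (c - 1 / r + (c - (x0 + r ^ 2) / r + (c - (x0 + 1 - w + r ^ 2) / r)))
      = 3 * c - (2 + 2 * x0 - w + 2 * r ^ 2) / r := by
    field_simp
    ring
  rw [e]
  have := (div_le_iff₀ hr).2 h
  linarith

theorem rows_four {c r x0 w v : ℝ} {z e f : ℂ} (hr : 0 < r) (hz : ‖z‖ ^ 2 = x0) (he : e ≠ 0)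
    (hf : f ≠ 0) (hef : e ≠ f)
    (hze : ‖z - e‖ ^ 2 = x0 + 1 - w) (hzf : ‖z - f‖ ^ 2 = x0 + 1 - v) {K : ℝ}
    (h : 3 + 3 * x0 - w - v + 3 * r ^ 2 ≤ (4 * c - K) * r) :
    K ≤ (c - 1 / r) + ∑ x ∈ ({0, e, f} : Finset ℂ), (c - (‖z - x‖ ^ 2 + r ^ 2) / r) := by
  have k1 : (0 : ℂ) ∉ ({e, f} : Finset ℂ) := by
    rw [Finset.mem_insert, Finset.mem_singleton]
    rintro (h | h)
    · exact he h.symm
    · exact hf h.symm
  have k2 : e ∉ ({f} : Finset ℂ) := by
    rw [Finset.mem_singleton]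
    exact hef
  rw [Finset.sum_insert k1, Finset.sum_insert k2, Finset.sum_singleton, sub_zero, hz, hze, hzf]
  have e : (c - 1 / r + (c - (x0 + r ^ 2) / r + (c - (x0 + 1 - w + r ^ 2) / r
      + (c - (x0 + 1 - v + r ^ 2) / r))))
      = 4 * c - (3 + 3 * x0 - w - v + 3 * r ^ 2) / r := by
    field_simp
    ring
  rw [e]
  have := (div_le_iff₀ hr).2 h
  linarith

theorem rows_five {c r x0 w v : ℝ} {z e f g : ℂ} (hr : 0 < r) (hz : ‖z‖ ^ 2 = x0) (he : e ≠ 0)
    (hf : f ≠ 0) (hg : g ≠ 0) (hef : e ≠ f) (heg : e ≠ g) (hfg : f ≠ g)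
    (hze : ‖z - e‖ ^ 2 = x0 + 1 - w) (hzf : ‖z - f‖ ^ 2 = x0 + 1 - v)
    (hzg : ‖z - g‖ ^ 2 = x0 + 2 - w - v) {K : ℝ}
    (h : 5 + 4 * x0 - 2 * (w + v) + 4 * r ^ 2 ≤ (5 * c - K) * r) :
    K ≤ (c - 1 / r) + ∑ x ∈ ({0, e, f, g} : Finset ℂ), (c - (‖z - x‖ ^ 2 + r ^ 2) / r) := by
  have k1 : (0 : ℂ) ∉ ({e, f, g} : Finset ℂ) := by
    rw [Finset.mem_insert, Finset.mem_insert, Finset.mem_singleton]
    rintro (h | h | h)
    · exact he h.symm
    · exact hf h.symm
    · exact hg h.symm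
  have k2 : e ∉ ({f, g} : Finset ℂ) := by
    rw [Finset.mem_insert, Finset.mem_singleton]
    rintro (h | h)
    · exact hef h
    · exact heg h
  have k3 : f ∉ ({g} : Finset ℂ) := by
    rw [Finset.mem_singleton]
    exact hfg
  rw [Finset.sum_insert k1, Finset.sum_insert k2, Finset.sum_insert k3, Finset.sum_singleton,
    sub_zero, hz, hze, hzf, hzg]
  have e : (c - 1 / r + (c - (x0 + r ^ 2) / r + (c - (x0 + 1 - w + r ^ 2) / r
      + (c - (x0 + 1 - v + r ^ 2) / r + (c - (x0 + 2 - w - v + r ^ 2) / r)))))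
      = 5 * c - (5 + 4 * x0 - 2 * (w + v) + 4 * r ^ 2) / r := by
    field_simp
    ring
  rw [e]
  have := (div_le_iff₀ hr).2 h
  linarith

theorem reduced_lower_gauss2 {q : Pt} (hq : q ∈ UH)
    (h1 : ∀ y ∈ intRing I, ‖q.1‖ ≤ ‖q.1 - y‖)
    (h2 : ∀ v ∈ Prim (intRing I), 1 / q.2 ≤ uval v q) (hlt : q.2 < 106 / 100) :
    ∃ X : Finset ℂ, (∀ x ∈ X, x ∈ intRing I) ∧
      (135 / 161 : ℝ) ≤ ((159 / 100 - 1 / q.2)
        + ∑ x ∈ X, (159 / 100 - (‖q.1 - x‖ ^ 2 + q.2 ^ 2) / q.2)) := by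
  have hq2 : 0 < q.2 := hq
  obtain ⟨b1, b2⟩ := gauss_bounds h1
  have h3 := outside hq h2 (intRing I).zero_mem
  rw [sub_zero, normsq_eq] at h3
  obtain ⟨z, r⟩ := q
  simp only at h1 h2 hlt hq2 b1 b2 h3 ⊢
  -- signs
  obtain ⟨a, ha, haz⟩ : ∃ a : ℤ, (a = 1 ∨ a = -1) ∧ (a : ℝ) * z.re = |z.re| := by
    rcases le_total 0 z.re with h | h
    · exact ⟨1, Or.inl rfl, by rw [abs_of_nonneg h]; simp⟩
    · exact ⟨-1, Or.inr rfl, by rw [abs_of_nonpos h]; simp⟩
  obtain ⟨b, hb, hbz⟩ : ∃ b : ℤ, (b = 1 ∨ b = -1) ∧ (b : ℝ) * z.im = |z.im| := by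
    rcases le_total 0 z.im with h | h
    · exact ⟨1, Or.inl rfl, by rw [abs_of_nonneg h]; simp⟩
    · exact ⟨-1, Or.inr rfl, by rw [abs_of_nonpos h]; simp⟩
  have ha2 : (a : ℝ) ^ 2 = 1 := by rcases ha with rfl | rfl <;> norm_num
  have hb2 : (b : ℝ) ^ 2 = 1 := by rcases hb with rfl | rfl <;> norm_num
  have ha0 : (a : ℝ) ≠ 0 := by intro h; rw [h] at ha2; norm_num at ha2
  have hb0 : (b : ℝ) ≠ 0 := by intro h; rw [h] at hb2; norm_num at hb2
  have hX2 : z.re ^ 2 = |z.re| ^ 2 := (sq_abs _).symm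
  have hY2 : z.im ^ 2 = |z.im| ^ 2 := (sq_abs _).symm
  have hX0 : 0 ≤ |z.re| := abs_nonneg _
  have hY0 : 0 ≤ |z.im| := abs_nonneg _
  set X := |z.re|
  set Y := |z.im|
  have m1 : (⟨a, 0⟩ : ℂ) ∈ intRing I := by
    refine (mem_gauss _).2 ⟨a, 0, ?_⟩
    apply Complex.ext <;> simp
  have m2 : (⟨0, b⟩ : ℂ) ∈ intRing I := by
    refine (mem_gauss _).2 ⟨0, b, ?_⟩
    apply Complex.ext <;> simp
  have m3 : (⟨a, b⟩ : ℂ) ∈ intRing I := by
    refine (mem_gauss _).2 ⟨a, b, ?_⟩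
    apply Complex.ext <;> simp
  have n0 : ‖z‖ ^ 2 = X ^ 2 + Y ^ 2 := by
    rw [normsq_eq, hX2, hY2]
  have n1 : ‖z - ⟨a, 0⟩‖ ^ 2 = X ^ 2 + Y ^ 2 + 1 - 2 * X := by
    rw [normsq_eq, sub_re, sub_im]
    simp only
    linear_combination hX2 + hY2 + ha2 - 2 * haz
  have n2 : ‖z - ⟨0, b⟩‖ ^ 2 = X ^ 2 + Y ^ 2 + 1 - 2 * Y := by
    rw [normsq_eq, sub_re, sub_im]
    simp only
    linear_combination hX2 + hY2 + hb2 - 2 * hbz
  have n3 : ‖z - ⟨a, b⟩‖ ^ 2 = X ^ 2 + Y ^ 2 + 2 - 2 * X - 2 * Y := by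
    rw [normsq_eq, sub_re, sub_im]
    simp only
    linear_combination hX2 + hY2 + ha2 - 2 * haz + hb2 - 2 * hbz
  have k1 : (⟨a, 0⟩ : ℂ) ≠ 0 := fun h => ha0 (congrArg Complex.re h)
  have k2 : (⟨0, b⟩ : ℂ) ≠ 0 := fun h => hb0 (congrArg Complex.im h)
  have k3 : (⟨a, b⟩ : ℂ) ≠ 0 := fun h => ha0 (congrArg Complex.re h)
  have k12 : (⟨a, 0⟩ : ℂ) ≠ ⟨0, b⟩ := fun h => ha0 (congrArg Complex.re h)
  have k13 : (⟨a, 0⟩ : ℂ) ≠ ⟨a, b⟩ := fun h => hb0 (congrArg Complex.im h).symm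
  have k23 : (⟨0, b⟩ : ℂ) ≠ ⟨a, b⟩ := fun h => ha0 (congrArg Complex.re h).symm
  rw [hX2, hY2] at h3
  have five : (5 + 4 * (X ^ 2 + Y ^ 2) - 4 * (X + Y) + 4 * r ^ 2 ≤ (795 / 100 - 135 / 161) * r) →
      ∃ X : Finset ℂ, (∀ x ∈ X, x ∈ intRing I) ∧
      (135 / 161 : ℝ) ≤ ((159 / 100 - 1 / r)
        + ∑ x ∈ X, (159 / 100 - (‖z - x‖ ^ 2 + r ^ 2) / r)) := by
    intro h
    refine ⟨{0, ⟨a, 0⟩, ⟨0, b⟩, ⟨a, b⟩}, ?_, ?_⟩
    · intro x hx
      simp only [Finset.mem_insert, Finset.mem_singleton] at hx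
      rcases hx with rfl | rfl | rfl | rfl
      · exact (intRing I).zero_mem
      · exact m1
      · exact m2
      · exact m3
    · exact rows_five (c := 159 / 100) (w := 2 * X) (v := 2 * Y) hq2 n0 k1 k2 k3 k12 k13 k23
        n1 n2 n3 (by linarith)
  have two : (1 + (X ^ 2 + Y ^ 2) + 1 * r ^ 2 ≤ (318 / 100 - 135 / 161) * r) →
      ∃ X : Finset ℂ, (∀ x ∈ X, x ∈ intRing I) ∧
      (135 / 161 : ℝ) ≤ ((159 / 100 - 1 / r)
        + ∑ x ∈ X, (159 / 100 - (‖z - x‖ ^ 2 + r ^ 2) / r)) := by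
    intro h
    refine ⟨{0}, ?_, ?_⟩
    · intro x hx
      rw [Finset.mem_singleton] at hx
      rw [hx]
      exact (intRing I).zero_mem
    · exact rows_two (c := 159 / 100) hq2 n0 (by linarith)
  rcases le_total Y X with hYX | hYX
  · rcases gauss_alt b1 hY0 hYX hq2 h3 hlt with h | h | h
    · exact two h
    · refine ⟨{0, ⟨a, 0⟩}, ?_, ?_⟩
      · intro x hx
        simp only [Finset.mem_insert, Finset.mem_singleton] at hx
        rcases hx with rfl | rfl
        · exact (intRing I).zero_mem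
        · exact m1
      · exact rows_three (c := 159 / 100) (w := 2 * X) hq2 n0 k1 n1 (by linarith)
    · exact five h
  · rcases gauss_alt b2 hX0 hYX hq2 (by linarith) hlt with h | h | h
    · exact two (by linarith)
    · refine ⟨{0, ⟨0, b⟩}, ?_, ?_⟩
      · intro x hx
        simp only [Finset.mem_insert, Finset.mem_singleton] at hx
        rcases hx with rfl | rfl
        · exact (intRing I).zero_mem
        · exact m2
      · exact rows_three (c := 159 / 100) (w := 2 * Y) hq2 n0 k2 n2 (by linarith)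
    · exact five (by linarith)

theorem lower_gauss2 {p : Pt} (hp : p ∈ UH) :
    ENNReal.ofReal (4 * (135 / 100)) ≤
      ∑' v : Prim (intRing I),
        ENNReal.ofReal (Qf (159 / 100) (161 / 100) (106 / 100) (135 / 100) (1 / uval v p)) := by
  obtain ⟨γ, hγ, h1, h2⟩ := reduce niceRing_gauss hp
  rw [← tsum_act hγ hp
    (fun u => ENNReal.ofReal (Qf (159 / 100) (161 / 100) (106 / 100) (135 / 100) (1 / u)))]
  have := lower_generic (c := 159 / 100) (s := 161 / 100) (T := 106 / 100) (M := 135 / 100) gU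
    gU_unit (act_mem' γ hp) h2 (fun hlt => by
      obtain ⟨X, hX, hK⟩ := reduced_lower_gauss2 (act_mem' γ hp) h1 h2 hlt
      exact ⟨X, hX, by linarith⟩)
  rw [gU_card] at this
  exact_mod_cast this

theorem norm_one_sub_omega : ‖1 - omega‖ = 1 := by
  rw [← norm_neg, neg_sub, norm_omega_sub]

/-- the second direction -/
theorem eis_dir2 {z e : ℂ} (he : e ∈ intRing omega) (he1 : ‖e‖ = 1)
    (w0 : 0 ≤ 2 * (z * (starRingEnd ℂ) e).re)
    (hw : 3 * ‖z‖ ^ 2 ≤ (2 * (z * (starRingEnd ℂ) e).re) ^ 2) :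
    ∃ f ∈ intRing omega, ‖f‖ = 1 ∧ e ≠ f ∧
      2 * (z * (starRingEnd ℂ) f).re ≤ 2 * (z * (starRingEnd ℂ) e).re ∧
      2 * (z * (starRingEnd ℂ) e).re ≤ 2 * (2 * (z * (starRingEnd ℂ) f).re) ∧
      (2 * (z * (starRingEnd ℂ) e).re) ^ 2
        - (2 * (z * (starRingEnd ℂ) e).re) * (2 * (z * (starRingEnd ℂ) f).re)
        + (2 * (z * (starRingEnd ℂ) f).re) ^ 2 = 3 * ‖z‖ ^ 2 := by
  -- the two candidates
  set a := e * omega with ha
  set b := e * (1 - omega) with hb
  have hab : a + b = e := by rw [ha, hb]; ring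
  have hma : a ∈ intRing omega := (intRing omega).mul_mem he omega_mem
  have hmb : b ∈ intRing omega :=
    (intRing omega).mul_mem he ((intRing omega).sub_mem (intRing omega).one_mem omega_mem)
  have hna : ‖a‖ = 1 := by rw [ha, norm_mul, he1, norm_omega, one_mul]
  have hnb : ‖b‖ = 1 := by rw [hb, norm_mul, he1, norm_one_sub_omega, one_mul]
  have hsum : (z * (starRingEnd ℂ) a).re + (z * (starRingEnd ℂ) b).re
      = (z * (starRingEnd ℂ) e).re := by
    rw [← hab, map_add, mul_add, add_re]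
  -- quadratic identity
  have hquad : (2 * (z * (starRingEnd ℂ) e).re) ^ 2
        - (2 * (z * (starRingEnd ℂ) e).re) * (2 * (z * (starRingEnd ℂ) a).re)
        + (2 * (z * (starRingEnd ℂ) a).re) ^ 2 = 3 * ‖z‖ ^ 2 := by
    have e1 : (z * (starRingEnd ℂ) a).re
        = (z * (starRingEnd ℂ) e).re * (1 / 2)
          + (z * (starRingEnd ℂ) e).im * (Real.sqrt 3 / 2) := by
      rw [ha, map_mul, ← mul_assoc, mul_re, conj_re, conj_im, omega_re, omega_im]; ring
    have e2 : (z * (starRingEnd ℂ) e).re ^ 2 + (z * (starRingEnd ℂ) e).im ^ 2 = ‖z‖ ^ 2 := by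
      rw [← normsq_eq, norm_mul, RCLike.norm_conj, he1, mul_one]
    rw [e1]
    have := sqrt3_sq
    linear_combination 3 * e2 + (z * (starRingEnd ℂ) e).im ^ 2 * this
  have hnea : e ≠ a := by
    intro h
    have h1 : b = 0 := by rw [← hab] at h; simpa using h
    rw [h1, norm_zero] at hnb
    exact zero_ne_one hnb
  have hneb : e ≠ b := by
    intro h
    have h1 : a = 0 := by rw [← hab] at h; simpa using h
    rw [h1, norm_zero] at hna
    exact zero_ne_one hna
  set w := 2 * (z * (starRingEnd ℂ) e).re with hwdef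
  rcases le_total w (2 * (2 * (z * (starRingEnd ℂ) a).re)) with hc | hc
  · refine ⟨a, hma, hna, hnea, ?_, hc, hquad⟩
    set v := 2 * (z * (starRingEnd ℂ) a).re
    by_contra hn
    have hn' : w < v := not_le.1 hn
    have : 0 < v := by linarith
    nlinarith
  · have hvb : 2 * (z * (starRingEnd ℂ) b).re = w - 2 * (z * (starRingEnd ℂ) a).re := by
      rw [hwdef, ← hsum]; ring
    refine ⟨b, hmb, hnb, hneb, ?_, ?_, ?_⟩
    · rw [hvb]
      set v := 2 * (z * (starRingEnd ℂ) a).re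
      have : 0 ≤ v := by
        by_contra hn
        have hn' : v < 0 := not_le.1 hn
        nlinarith
      linarith
    · rw [hvb]
      linarith
    · rw [hvb]
      linear_combination hquad

theorem reduced_lower_eisenstein2 {q : Pt} (hq : q ∈ UH)
    (h1 : ∀ y ∈ intRing omega, ‖q.1‖ ≤ ‖q.1 - y‖)
    (h2 : ∀ v ∈ Prim (intRing omega), 1 / q.2 ≤ uval v q) (hlt : q.2 < 104 / 100) :
    ∃ X : Finset ℂ, (∀ x ∈ X, x ∈ intRing omega) ∧
      (215 / 347 : ℝ) ≤ ((143 / 100 - 1 / q.2)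
        + ∑ x ∈ X, (143 / 100 - (‖q.1 - x‖ ^ 2 + q.2 ^ 2) / q.2)) := by
  have hq2 : 0 < q.2 := hq
  obtain ⟨e, he, he1, w0, w1, hw⟩ := eis_dir h1
  obtain ⟨f, hf, hf1, hef, hvw, hv, hwv⟩ := eis_dir2 he he1 w0 hw
  have h3 := outside hq h2 (intRing omega).zero_mem
  rw [sub_zero] at h3
  have he0 : e ≠ 0 := by
    intro h; rw [h] at he1; simp at he1
  have hf0 : f ≠ 0 := by
    intro h; rw [h] at hf1; simp at hf1
  have n1 := normsq_sub q.1 e
  have n2 := normsq_sub q.1 f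
  rw [he1] at n1
  rw [hf1] at n2
  obtain ⟨z, r⟩ := q
  simp only at h1 h2 hlt hq2 w0 w1 hw h3 n1 n2 hvw hv hwv ⊢
  set w := 2 * (z * (starRingEnd ℂ) e).re
  set v := 2 * (z * (starRingEnd ℂ) f).re
  rcases le_total (‖z‖ ^ 2) (2 / 10) with hc | hc
  · refine ⟨{0}, ?_, ?_⟩
    · intro x hx
      rw [Finset.mem_singleton] at hx
      rw [hx]
      exact (intRing omega).zero_mem
    · have key := eis_two2 hc hq2 h3 hlt
      exact rows_two (c := 143 / 100) hq2 rfl (by linarith)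
  · rcases le_total (‖z‖ ^ 2) (3 / 10) with hc' | hc'
    · refine ⟨{0, e}, ?_, ?_⟩
      · intro x hx
        simp only [Finset.mem_insert, Finset.mem_singleton] at hx
        rcases hx with rfl | rfl
        · exact (intRing omega).zero_mem
        · exact he
      · have key := eis_three2 hc hc' w0 hw w1 hq2 h3 hlt
        exact rows_three (c := 143 / 100) (w := w) hq2 rfl he0 (by rw [n1]; ring) (by linarith)
    · refine ⟨{0, e, f}, ?_, ?_⟩
      · intro x hx
        simp only [Finset.mem_insert, Finset.mem_singleton] at hx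
        rcases hx with rfl | rfl | rfl
        · exact (intRing omega).zero_mem
        · exact he
        · exact hf
      · have key := eis_four2 hc' w1 hvw hv w0 hwv hq2 h3 hlt
        exact rows_four (c := 143 / 100) (w := w) (v := v) hq2 rfl he0 hf0 hef
          (by rw [n1]; ring) (by rw [n2]; ring) (by linarith)

theorem lower_eisenstein2 {p : Pt} (hp : p ∈ UH) :
    ENNReal.ofReal (6 * (86 / 100)) ≤
      ∑' v : Prim (intRing omega),
        ENNReal.ofReal (Qf (143 / 100) (1388 / 1000) (104 / 100) (86 / 100) (1 / uval v p)) := by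
  obtain ⟨γ, hγ, h1, h2⟩ := reduce niceRing_eisenstein hp
  rw [← tsum_act hγ hp
    (fun u => ENNReal.ofReal (Qf (143 / 100) (1388 / 1000) (104 / 100) (86 / 100) (1 / u)))]
  have := lower_generic (c := 143 / 100) (s := 1388 / 1000) (T := 104 / 100) (M := 86 / 100) eU
    eU_unit (act_mem' γ hp) h2 (fun hlt => by
      obtain ⟨X, hX, hK⟩ := reduced_lower_eisenstein2 (act_mem' γ hp) h1 h2 hlt
      exact ⟨X, hX, by linarith⟩)
  rw [eU_card] at this
  exact_mod_cast this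

end Pool.Agent.Helper99.Ram
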