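import Pool.Agent.Helper99.Ram.Red

set_option autoImplicit false

/-!
# Reduction theory: highest points, coverings, lower bounds for sums over rows
-/

namespace Pool.Agent.Helper99.Ram

open Complex MeasureTheory Topology
open Pool.Agent.Helper10.Ram

theorem prim_finite {R : Subring ℂ} (hR : NiceRing R) {p : Pt} (hp : p ∈ UH) (K : ℝ) :
    {v : ℂ × ℂ | v ∈ Prim R ∧ uval v p ≤ K}.Finite := by
  have hp2 : 0 < p.2 := hp
  set C1 : ℝ := Real.sqrt (K / p.2)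
  set C2 : ℝ := Real.sqrt (K * p.2) + C1 * ‖p.1‖
  refine Set.Finite.subset ((hR.fin C1).prod (hR.fin C2)) ?_
  rintro v ⟨hv, hle⟩
  have h1 : ‖v.1 * p.1 + v.2‖ ^ 2 + ‖v.1‖ ^ 2 * p.2 ^ 2 ≤ K * p.2 := by
    have := (div_le_iff₀ hp2).1 hle
    linarith
  have hv1 : ‖v.1‖ ≤ C1 := by
    apply Real.le_sqrt_of_sq_le
    rw [le_div_iff₀ hp2]
    have h2 : ‖v.1‖ ^ 2 * p.2 ^ 2 ≤ K * p.2 := by nlinarith [sq_nonneg ‖v.1 * p.1 + v.2‖]
    have h3 : (‖v.1‖ ^ 2 * p.2) * p.2 ≤ K * p.2 := by nlinarith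
    exact le_of_mul_le_mul_right h3 hp2
  have hv2 : ‖v.2‖ ≤ C2 := by
    have h2 : ‖v.1 * p.1 + v.2‖ ≤ Real.sqrt (K * p.2) := by
      apply Real.le_sqrt_of_sq_le
      nlinarith [mul_nonneg (sq_nonneg ‖v.1‖) (sq_nonneg p.2)]
    have h3 : ‖v.2‖ ≤ ‖v.1 * p.1 + v.2‖ + ‖v.1 * p.1‖ := by
      have : v.2 = (v.1 * p.1 + v.2) - v.1 * p.1 := by ring
      calc ‖v.2‖ = ‖(v.1 * p.1 + v.2) - v.1 * p.1‖ := by rw [← this]
        _ ≤ _ := norm_sub_le _ _
    rw [norm_mul] at h3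
    have h4 : ‖v.1‖ * ‖p.1‖ ≤ C1 * ‖p.1‖ := mul_le_mul_of_nonneg_right hv1 (norm_nonneg _)
    exact h3.trans (add_le_add h2 h4)
  exact ⟨⟨prim_fst hv, hv1⟩, ⟨prim_snd hv, hv2⟩⟩

theorem snd_act (g : SL2C) (p : Pt) (_hp : p ∈ UH) :
    1 / (act g p).2 = uval (g 1 0, g 1 1) p := by
  have h2 : (act g p).2 = p.2 / den g p := rfl
  rw [h2, uval_eq, one_div_div]
  rfl

/-- every orbit contains a point of maximal height which is closest to `0` modulo
translations -/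
theorem reduce {R : Subring ℂ} (hR : NiceRing R) {p : Pt} (hp : p ∈ UH) :
    ∃ γ ∈ Gam R, (∀ y ∈ R, ‖(act γ p).1‖ ≤ ‖(act γ p).1 - y‖) ∧
      (∀ v ∈ Prim R, 1 / (act γ p).2 ≤ uval v (act γ p)) := by
  obtain ⟨v, ⟨hv, _⟩, hmin⟩ := Set.exists_min_image
    {v : ℂ × ℂ | v ∈ Prim R ∧ uval v p ≤ uval (0, 1) p} (fun v => uval v p)
    (prim_finite hR hp _) ⟨(0, 1), prim_zero_one R, le_rfl⟩
  have hmin' : ∀ w ∈ Prim R, uval v p ≤ uval w p := by
    intro w hw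
    by_cases h : uval w p ≤ uval (0, 1) p
    · exact hmin w ⟨hw, h⟩
    · exact (hmin (0, 1) ⟨prim_zero_one R, le_rfl⟩).trans (not_le.1 h).le
  obtain ⟨γ, hγ, rfl⟩ := hv
  set z := (act γ p).1 with hz
  have hfin : {x : ℂ | x ∈ R ∧ ‖z + x‖ ≤ ‖z‖}.Finite := by
    refine (hR.fin (2 * ‖z‖)).subset ?_
    rintro x ⟨hx, hle⟩
    refine ⟨hx, ?_⟩
    have : ‖x‖ ≤ ‖z + x‖ + ‖z‖ := by
      calc ‖x‖ = ‖(z + x) - z‖ := by rw [add_sub_cancel_left]
        _ ≤ _ := norm_sub_le _ _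
    linarith
  obtain ⟨x, ⟨hx, _⟩, hxmin⟩ := Set.exists_min_image _ (fun x => ‖z + x‖) hfin
    ⟨0, R.zero_mem, by rw [add_zero]⟩
  have hxmin' : ∀ y ∈ R, ‖z + x‖ ≤ ‖z + y‖ := by
    intro y hy
    by_cases h : ‖z + y‖ ≤ ‖z‖
    · exact hxmin y ⟨hy, h⟩
    · have := hxmin 0 ⟨R.zero_mem, by rw [add_zero]⟩
      rw [add_zero] at this
      exact this.trans (not_le.1 h).le
  have hq : act (Pool.Agent.Helper10.Ram.trans x * γ) p = (z + x, (act γ p).2) :=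
    act_trans_mul x γ hp
  have hγ' : Pool.Agent.Helper10.Ram.trans x * γ ∈ Gam R := mul_mem (trans_mem hx) hγ
  refine ⟨Pool.Agent.Helper10.Ram.trans x * γ, hγ', ?_, ?_⟩
  · intro y hy
    rw [hq]
    have := hxmin' (x - y) (R.sub_mem hx hy)
    have h2 : z + (x - y) = z + x - y := by ring
    rw [h2] at this
    exact this
  · intro w hw
    rw [uval_act w _ hp]
    have h3 : (act (Pool.Agent.Helper10.Ram.trans x * γ) p).2 = (act γ p).2 := by rw [hq]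
    rw [h3, snd_act γ p hp]
    exact hmin' _ (prim_mul hw hγ')

/-- invariance of sums over rows -/
theorem tsum_act {R : Subring ℂ} {γ : SL2C} (hγ : γ ∈ Gam R) {p : Pt} (hp : p ∈ UH)
    (F : ℝ → ENNReal) :
    ∑' v : Prim R, F (uval v (act γ p)) = ∑' v : Prim R, F (uval v p) := by
  let e : Prim R ≃ Prim R :=
    { toFun := fun v => ⟨rowMul v γ, prim_mul v.2 hγ⟩
      invFun := fun v => ⟨rowMul v γ⁻¹, prim_mul v.2 (inv_mem hγ)⟩
      left_inv := fun v => Subtype.ext (rowMul_inv _ _)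
      right_inv := fun v => Subtype.ext (rowMul_inv' _ _) }
  rw [← e.tsum_eq (fun v : Prim R => F (uval v p))]
  congr 1
  ext v
  rw [uval_act _ _ hp]
  rfl

/-- the row `(1, -x)` -/
theorem prim_one_neg {R : Subring ℂ} {x : ℂ} (hx : x ∈ R) : ((1 : ℂ), -x) ∈ Prim R :=
  prim_of (a := 0) (b := -1) R.zero_mem (R.neg_mem R.one_mem) R.one_mem (R.neg_mem hx) (by ring)

theorem uval_one_neg (x : ℂ) (q : Pt) :
    uval (1, -x) q = (‖q.1 - x‖ ^ 2 + q.2 ^ 2) / q.2 := by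
  unfold uval
  simp only [one_mul, norm_one, one_pow]
  rw [← sub_eq_add_neg]

theorem outside {R : Subring ℂ} {q : Pt} (hq : q ∈ UH)
    (h : ∀ v ∈ Prim R, 1 / q.2 ≤ uval v q) {x : ℂ} (hx : x ∈ R) :
    1 ≤ ‖q.1 - x‖ ^ 2 + q.2 ^ 2 := by
  have hq2 : 0 < q.2 := hq
  have h1 := h _ (prim_one_neg hx)
  rw [uval_one_neg, div_le_div_iff_of_pos_right hq2] at h1
  exact h1

/-- expansion of `‖z - e‖²` -/
theorem normsq_sub (z e : ℂ) : ‖z - e‖ ^ 2 = ‖z‖ ^ 2 + ‖e‖ ^ 2 - 2 * (z * (starRingEnd ℂ) e).re := by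
  rw [← Complex.normSq_eq_norm_sq, ← Complex.normSq_eq_norm_sq, ← Complex.normSq_eq_norm_sq]
  rw [Complex.normSq_sub]

theorem two_re_le {R : Subring ℂ} {z : ℂ} (h : ∀ y ∈ R, ‖z‖ ≤ ‖z - y‖) {e : ℂ} (he : e ∈ R)
    (h1 : ‖e‖ = 1) : 2 * (z * (starRingEnd ℂ) e).re ≤ 1 := by
  have h2 := h e he
  have h3 := normsq_sub z e
  rw [h1] at h3
  have h4 : ‖z‖ ^ 2 ≤ ‖z - e‖ ^ 2 := pow_le_pow_left₀ (norm_nonneg _) h2 2
  linarith

/-- rows attached to units and translations -/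
noncomputable def rowOf (e : ℂ) : Option ℂ → ℂ × ℂ
  | none => (0, e)
  | some x => (e, -(e * x))

theorem rowOf_inj {e e' : ℂ} (he : e ≠ 0) (he' : e' ≠ 0) {o o' : Option ℂ}
    (h : rowOf e o = rowOf e' o') : e = e' ∧ o = o' := by
  cases o with
  | none =>
    cases o' with
    | none =>
      have := congrArg Prod.snd h
      exact ⟨this, rfl⟩
    | some x' =>
      have : (0 : ℂ) = e' := congrArg Prod.fst h
      exact absurd this.symm he'
  | some x =>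
    cases o' with
    | none =>
      have : e = 0 := congrArg Prod.fst h
      exact absurd this he
    | some x' =>
      have h1 : e = e' := congrArg Prod.fst h
      have h2 : -(e * x) = -(e' * x') := congrArg Prod.snd h
      refine ⟨h1, ?_⟩
      rw [← h1, neg_inj] at h2
      rw [mul_left_cancel₀ he h2]

theorem rowOf_mem {R : Subring ℂ} {e : ℂ} (he : e ∈ R) (he' : e⁻¹ ∈ R) (h0 : e ≠ 0)
    {o : Option ℂ} (ho : ∀ x ∈ o, x ∈ R) : rowOf e o ∈ Prim R := by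
  cases o with
  | none =>
    exact prim_of (a := e⁻¹) (b := 0) he' R.zero_mem R.zero_mem he (by
      rw [inv_mul_cancel₀ h0]; ring)
  | some x =>
    exact prim_of (a := 0) (b := -e⁻¹) R.zero_mem (R.neg_mem he') he
      (R.neg_mem (R.mul_mem he (ho x rfl))) (by
        have := inv_mul_cancel₀ h0
        linear_combination this)

theorem uval_rowOf_none {e : ℂ} (h1 : ‖e‖ = 1) (q : Pt) : uval (rowOf e none) q = 1 / q.2 := by
  unfold uval rowOf
  simp [h1]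

theorem uval_rowOf_some {e : ℂ} (h1 : ‖e‖ = 1) (x : ℂ) (q : Pt) :
    uval (rowOf e (some x)) q = (‖q.1 - x‖ ^ 2 + q.2 ^ 2) / q.2 := by
  unfold uval rowOf
  simp only
  have : e * q.1 + -(e * x) = e * (q.1 - x) := by ring
  rw [this, norm_mul, h1]
  ring

theorem lower_sum {R : Subring ℂ} (U X : Finset ℂ)
    (hU : ∀ e ∈ U, e ∈ R ∧ e⁻¹ ∈ R ∧ ‖e‖ = 1) (hX : ∀ x ∈ X, x ∈ R)
    (F : ℝ → ENNReal) (q : Pt) :
    (U.card : ENNReal) * (F (1 / q.2) + ∑ x ∈ X, F ((‖q.1 - x‖ ^ 2 + q.2 ^ 2) / q.2))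
      ≤ ∑' v : Prim R, F (uval v q) := by
  have h0 : ∀ e ∈ U, e ≠ 0 := by
    intro e he h
    have := (hU e he).2.2
    rw [h] at this
    simp at this
  let φ : U × Option X → Prim R := fun a =>
    ⟨rowOf a.1 (a.2.map Subtype.val), rowOf_mem (hU _ a.1.2).1 (hU _ a.1.2).2.1 (h0 _ a.1.2) (by
      intro x hx
      rcases ha : a.2 with _ | y
      · rw [ha] at hx; simp at hx
      · rw [ha] at hx
        simp at hx
        rw [← hx]
        exact hX _ y.2)⟩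
  have hinj : Function.Injective φ := by
    rintro ⟨e, o⟩ ⟨e', o'⟩ h
    have h' := congrArg Subtype.val h
    obtain ⟨h1, h2⟩ := rowOf_inj (h0 _ e.2) (h0 _ e'.2) h'
    have h3 : o = o' := Option.map_injective Subtype.val_injective h2
    exact Prod.ext (Subtype.ext h1) h3
  have hle := ENNReal.tsum_comp_le_tsum_of_injective hinj (fun v : Prim R => F (uval v q))
  refine le_trans (le_of_eq ?_) hle
  rw [tsum_fintype, Fintype.sum_prod_type]
  have hterm : ∀ e : U, (∑ o : Option X, F (uval (φ (e, o)) q))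
      = F (1 / q.2) + ∑ x ∈ X, F ((‖q.1 - x‖ ^ 2 + q.2 ^ 2) / q.2) := by
    intro e
    rw [Fintype.sum_option]
    congr 1
    · have : uval (φ (e, none)) q = 1 / q.2 := uval_rowOf_none (hU _ e.2).2.2 q
      rw [this]
    · rw [← Finset.sum_coe_sort X (fun x => F ((‖q.1 - x‖ ^ 2 + q.2 ^ 2) / q.2))]
      refine Finset.sum_congr rfl fun x _ => ?_
      have : uval (φ (e, some x)) q = (‖q.1 - x‖ ^ 2 + q.2 ^ 2) / q.2 :=
        uval_rowOf_some (hU _ e.2).2.2 x q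
      rw [this]
  rw [Finset.sum_congr rfl (fun e _ => hterm e), Finset.sum_const, nsmul_eq_mul]
  congr 1
  simp

end Pool.Agent.Helper99.Ram
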