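import Pool.Agent.Helper10.Ram.Lib

set_option autoImplicit false

/-!
# Lattices, reduction and height functions
-/

namespace Pool.Agent.Helper99.Ram

open Complex MeasureTheory Topology
open Pool.Agent.Helper10.Ram

/-! ## The two rings -/

/-- the ring generated by a root of `τ² = u τ + w` -/
theorem intRing_mem {τ : ℂ} {u w : ℤ} (h : τ * τ = u * τ + w) (x : ℂ) :
    x ∈ intRing τ ↔ ∃ a b : ℤ, x = a + b * τ := by
  constructor
  · intro hx
    let S : Subring ℂ :=
      { carrier := {x | ∃ a b : ℤ, x = a + b * τ}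
        mul_mem' := by
          rintro _ _ ⟨a, b, rfl⟩ ⟨c, d, rfl⟩
          refine ⟨a * c + b * d * w, a * d + b * c + b * d * u, ?_⟩
          push_cast
          linear_combination ((b : ℂ) * d) * h
        one_mem' := ⟨1, 0, by simp⟩
        add_mem' := by
          rintro _ _ ⟨a, b, rfl⟩ ⟨c, d, rfl⟩
          exact ⟨a + c, b + d, by push_cast; ring⟩
        zero_mem' := ⟨0, 0, by simp⟩
        neg_mem' := by
          rintro _ ⟨a, b, rfl⟩
          exact ⟨-a, -b, by push_cast; ring⟩ }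
    have hle : intRing τ ≤ S := by
      unfold intRing
      rw [Subring.closure_le]
      rintro y hy
      rw [Set.mem_singleton_iff] at hy
      subst hy
      exact ⟨0, 1, by simp⟩
    exact hle hx
  · rintro ⟨a, b, rfl⟩
    have hτ : τ ∈ intRing τ := Subring.subset_closure (Set.mem_singleton _)
    exact add_mem (intCast_mem _ a) (mul_mem (intCast_mem _ b) hτ)

theorem I_sq' : (I : ℂ) * I = ((0 : ℤ) : ℂ) * I + ((-1 : ℤ) : ℂ) := by
  simp

theorem omega_re : omega.re = 1 / 2 := by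
  unfold omega
  simp

theorem omega_im : omega.im = Real.sqrt 3 / 2 := by
  unfold omega
  simp

theorem sqrt3_sq : Real.sqrt 3 * Real.sqrt 3 = 3 := Real.mul_self_sqrt (by norm_num)

theorem omega_sq : omega * omega = ((1 : ℤ) : ℂ) * omega + ((-1 : ℤ) : ℂ) := by
  have h := sqrt3_sq
  apply Complex.ext
  · simp only [Complex.mul_re, omega_re, omega_im, Complex.add_re, Complex.intCast_re,
      Complex.intCast_im]
    push_cast
    nlinarith
  · simp only [Complex.mul_im, omega_re, omega_im, Complex.add_im, Complex.intCast_re,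
      Complex.intCast_im]
    push_cast
    ring

theorem mem_gauss (x : ℂ) : x ∈ intRing I ↔ ∃ a b : ℤ, x = a + b * I := intRing_mem I_sq' x

theorem mem_eis (x : ℂ) : x ∈ intRing omega ↔ ∃ a b : ℤ, x = a + b * omega :=
  intRing_mem omega_sq x

theorem isLat_gauss : IsLat (intRing I) I := ⟨by simp, mem_gauss⟩

theorem isLat_eisenstein : IsLat (intRing omega) omega :=
  ⟨by rw [omega_im]; positivity, mem_eis⟩

theorem normSq_gauss (a b : ℤ) : ‖(a + b * I : ℂ)‖ ^ 2 = (a : ℝ) ^ 2 + (b : ℝ) ^ 2 := by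
  rw [← Complex.normSq_eq_norm_sq, Complex.normSq_apply]
  simp
  ring

theorem normSq_eis (a b : ℤ) :
    ‖(a + b * omega : ℂ)‖ ^ 2 = (a : ℝ) ^ 2 + a * b + (b : ℝ) ^ 2 := by
  have h := sqrt3_sq
  rw [← Complex.normSq_eq_norm_sq, Complex.normSq_apply]
  simp only [Complex.add_re, Complex.mul_re, Complex.intCast_re, Complex.intCast_im, omega_re,
    omega_im, Complex.add_im, Complex.mul_im]
  nlinarith

theorem one_le_of_sq {x : ℂ} (h : (1 : ℝ) ≤ ‖x‖ ^ 2) : 1 ≤ ‖x‖ := by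
  have := norm_nonneg x
  nlinarith

theorem niceRing_gauss : NiceRing (intRing I) := by
  constructor
  · intro x hx h0
    obtain ⟨a, b, rfl⟩ := (mem_gauss x).1 hx
    apply one_le_of_sq
    rw [normSq_gauss]
    have hab : a ≠ 0 ∨ b ≠ 0 := by
      by_contra hc
      push Not at hc
      apply h0
      rw [hc.1, hc.2]
      simp
    have : (1 : ℤ) ≤ a ^ 2 + b ^ 2 := by
      rcases hab with h | h
      · have : 0 < a ^ 2 := by positivity
        nlinarith [sq_nonneg b]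
      · have : 0 < b ^ 2 := by positivity
        nlinarith [sq_nonneg a]
    exact_mod_cast this
  · intro C
    have hf : (Set.Icc (-⌈C⌉) ⌈C⌉ ×ˢ Set.Icc (-⌈C⌉) ⌈C⌉ : Set (ℤ × ℤ)).Finite :=
      (Set.finite_Icc _ _).prod (Set.finite_Icc _ _)
    refine (hf.image fun p : ℤ × ℤ => ((p.1 : ℂ) + p.2 * I)).subset ?_
    rintro x ⟨hx, hxC⟩
    obtain ⟨a, b, rfl⟩ := (mem_gauss x).1 hx
    have h1 := normSq_gauss a b
    have h2 := norm_nonneg (a + b * I : ℂ)
    have h3 : ((a : ℝ)) ^ 2 ≤ C ^ 2 := by nlinarith [sq_nonneg (b : ℝ)]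
    have h4 : ((b : ℝ)) ^ 2 ≤ C ^ 2 := by nlinarith [sq_nonneg (a : ℝ)]
    have hC : 0 ≤ C := le_trans h2 hxC
    have h5 := abs_le_of_sq_le_sq' h3 hC
    have h6 := abs_le_of_sq_le_sq' h4 hC
    have h7 := Int.le_ceil C
    refine ⟨(a, b), ⟨⟨?_, ?_⟩, ⟨?_, ?_⟩⟩, rfl⟩ <;>
    · have : ((⌈C⌉ : ℤ) : ℝ) ≥ C := h7
      first
        | (simp only; exact_mod_cast (show (-(⌈C⌉ : ℝ)) ≤ (a : ℝ) by linarith [h5.1]))
        | (simp only; exact_mod_cast (show (a : ℝ) ≤ (⌈C⌉ : ℝ) by linarith [h5.2]))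
        | (simp only; exact_mod_cast (show (-(⌈C⌉ : ℝ)) ≤ (b : ℝ) by linarith [h6.1]))
        | (simp only; exact_mod_cast (show (b : ℝ) ≤ (⌈C⌉ : ℝ) by linarith [h6.2]))

theorem niceRing_eisenstein : NiceRing (intRing omega) := by
  constructor
  · intro x hx h0
    obtain ⟨a, b, rfl⟩ := (mem_eis x).1 hx
    apply one_le_of_sq
    rw [normSq_eis]
    have hab : a ≠ 0 ∨ b ≠ 0 := by
      by_contra hc
      push Not at hc
      apply h0
      rw [hc.1, hc.2]
      simp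
    have : (1 : ℤ) ≤ a ^ 2 + a * b + b ^ 2 := by
      have h1 : 0 < a ^ 2 + a * b + b ^ 2 := by
        rcases hab with h | h
        · have : 0 < a ^ 2 := by positivity
          nlinarith [sq_nonneg (a + 2 * b)]
        · have : 0 < b ^ 2 := by positivity
          nlinarith [sq_nonneg (2 * a + b)]
      linarith
    exact_mod_cast this
  · intro C
    have hf : (Set.Icc (-⌈2 * C⌉) ⌈2 * C⌉ ×ˢ Set.Icc (-⌈2 * C⌉) ⌈2 * C⌉ : Set (ℤ × ℤ)).Finite :=
      (Set.finite_Icc _ _).prod (Set.finite_Icc _ _)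
    refine (hf.image fun p : ℤ × ℤ => ((p.1 : ℂ) + p.2 * omega)).subset ?_
    rintro x ⟨hx, hxC⟩
    obtain ⟨a, b, rfl⟩ := (mem_eis x).1 hx
    have h1 := normSq_eis a b
    have h2 := norm_nonneg (a + b * omega : ℂ)
    have hC : 0 ≤ C := le_trans h2 hxC
    have h3 : ((a : ℝ)) ^ 2 ≤ (2 * C) ^ 2 := by nlinarith [sq_nonneg ((a : ℝ) + 2 * b)]
    have h4 : ((b : ℝ)) ^ 2 ≤ (2 * C) ^ 2 := by nlinarith [sq_nonneg (2 * (a : ℝ) + b)]
    have h5 := abs_le_of_sq_le_sq' h3 (by linarith)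
    have h6 := abs_le_of_sq_le_sq' h4 (by linarith)
    have h7 := Int.le_ceil (2 * C)
    refine ⟨(a, b), ⟨⟨?_, ?_⟩, ⟨?_, ?_⟩⟩, rfl⟩ <;>
    · first
        | (simp only; exact_mod_cast (show (-(⌈2 * C⌉ : ℝ)) ≤ (a : ℝ) by linarith [h5.1]))
        | (simp only; exact_mod_cast (show (a : ℝ) ≤ (⌈2 * C⌉ : ℝ) by linarith [h5.2]))
        | (simp only; exact_mod_cast (show (-(⌈2 * C⌉ : ℝ)) ≤ (b : ℝ) by linarith [h6.1]))
        | (simp only; exact_mod_cast (show (b : ℝ) ≤ (⌈2 * C⌉ : ℝ) by linarith [h6.2]))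

end Pool.Agent.Helper99.Ram
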