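import Pool.Agent.Helper99.Ram.Lat

set_option autoImplicit false

/-!
# Rows, heights, reduction
-/

namespace Pool.Agent.Helper99.Ram

open Complex MeasureTheory Topology
open Pool.Agent.Helper10.Ram

/-- row times matrix -/
noncomputable def rowMul (v : ℂ × ℂ) (g : SL2C) : ℂ × ℂ :=
  (v.1 * g 0 0 + v.2 * g 1 0, v.1 * g 0 1 + v.2 * g 1 1)

theorem rowMul_mul (v : ℂ × ℂ) (g h : SL2C) : rowMul v (g * h) = rowMul (rowMul v g) h := by
  unfold rowMul
  simp only [Matrix.SpecialLinearGroup.coe_mul, Matrix.mul_apply, Fin.sum_univ_two]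
  ext <;> simp only <;> ring

theorem rowMul_one (v : ℂ × ℂ) : rowMul v 1 = v := by
  unfold rowMul
  simp

theorem rowMul_inv (v : ℂ × ℂ) (g : SL2C) : rowMul (rowMul v g) g⁻¹ = v := by
  rw [← rowMul_mul, mul_inv_cancel, rowMul_one]

theorem rowMul_inv' (v : ℂ × ℂ) (g : SL2C) : rowMul (rowMul v g⁻¹) g = v := by
  rw [← rowMul_mul, inv_mul_cancel, rowMul_one]

theorem rowMul_row (g h : SL2C) : rowMul (g 1 0, g 1 1) h = ((g * h) 1 0, (g * h) 1 1) := by
  unfold rowMul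
  simp only [Matrix.SpecialLinearGroup.coe_mul, Matrix.mul_apply, Fin.sum_univ_two]

theorem det_eq (g : SL2C) : g 0 0 * g 1 1 - g 0 1 * g 1 0 = 1 := by
  have := g.det_coe
  rwa [Matrix.det_fin_two] at this

theorem prim_mul {R : Subring ℂ} {v : ℂ × ℂ} (hv : v ∈ Prim R) {g : SL2C} (hg : g ∈ Gam R) :
    rowMul v g ∈ Prim R := by
  obtain ⟨γ, hγ, rfl⟩ := hv
  exact ⟨γ * g, mul_mem hγ hg, rowMul_row γ g⟩

theorem gam_mem {R : Subring ℂ} {g : SL2C} (hg : g ∈ Gam R) (i j : Fin 2) : g i j ∈ R := by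
  obtain ⟨m, rfl⟩ := hg
  exact (m i j).2

/-- matrices with entries in `R` -/
theorem mem_gam {R : Subring ℂ} {a b c d : ℂ} (ha : a ∈ R) (hb : b ∈ R) (hc : c ∈ R)
    (hd : d ∈ R) (h : a * d - b * c = 1) :
    ∃ γ ∈ Gam R, γ 0 0 = a ∧ γ 0 1 = b ∧ γ 1 0 = c ∧ γ 1 1 = d := by
  let m : Matrix.SpecialLinearGroup (Fin 2) R :=
    ⟨!![⟨a, ha⟩, ⟨b, hb⟩; ⟨c, hc⟩, ⟨d, hd⟩], by
      rw [Matrix.det_fin_two]
      apply Subtype.ext
      simpa using h⟩
  exact ⟨Matrix.SpecialLinearGroup.map (n := Fin 2) R.subtype m, ⟨m, rfl⟩, rfl, rfl, rfl, rfl⟩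

theorem trans_mem {R : Subring ℂ} {x : ℂ} (hx : x ∈ R) : trans x ∈ Gam R := by
  obtain ⟨γ, hγ, h1, h2, h3, h4⟩ := mem_gam (R := R) one_mem' hx zero_mem' one_mem'
    (show (1 : ℂ) * 1 - x * 0 = 1 by ring)
  have : trans x = γ := by
    ext i j
    fin_cases i <;> fin_cases j
    · exact h1.symm
    · exact h2.symm
    · exact h3.symm
    · exact h4.symm
  rw [this]
  exact hγ
where
  one_mem' := R.one_mem
  zero_mem' := R.zero_mem

theorem prim_of {R : Subring ℂ} {a b c d : ℂ} (ha : a ∈ R) (hb : b ∈ R) (hc : c ∈ R)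
    (hd : d ∈ R) (h : a * d - b * c = 1) : (c, d) ∈ Prim R := by
  obtain ⟨γ, hγ, _, _, h3, h4⟩ := mem_gam ha hb hc hd h
  exact ⟨γ, hγ, by rw [h3, h4]⟩

theorem prim_zero_one (R : Subring ℂ) : ((0 : ℂ), (1 : ℂ)) ∈ Prim R :=
  prim_of R.one_mem R.zero_mem R.zero_mem R.one_mem (by ring)

theorem prim_fst {R : Subring ℂ} {v : ℂ × ℂ} (hv : v ∈ Prim R) : v.1 ∈ R := by
  obtain ⟨γ, hγ, rfl⟩ := hv
  exact gam_mem hγ 1 0

theorem prim_snd {R : Subring ℂ} {v : ℂ × ℂ} (hv : v ∈ Prim R) : v.2 ∈ R := by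
  obtain ⟨γ, hγ, rfl⟩ := hv
  exact gam_mem hγ 1 1

/-- `|c z + d|² + |c|² r²` of a row -/
noncomputable def rden (v : ℂ × ℂ) (p : Pt) : ℝ := ‖v.1 * p.1 + v.2‖ ^ 2 + ‖v.1‖ ^ 2 * p.2 ^ 2

theorem uval_eq (v : ℂ × ℂ) (p : Pt) : uval v p = rden v p / p.2 := rfl

theorem den_eq (g : SL2C) (p : Pt) : den g p = rden (g 1 0, g 1 1) p := rfl

theorem rden_nonneg (v : ℂ × ℂ) (p : Pt) : 0 ≤ rden v p := by
  unfold rden
  positivity

theorem rden_pos {v : ℂ × ℂ} (hv : v ≠ 0) {p : Pt} (hp : p ∈ UH) : 0 < rden v p := by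
  have hp2 : 0 < p.2 := hp
  by_cases h : v.1 = 0
  · have h2 : v.2 ≠ 0 := fun h2 => hv (Prod.ext h h2)
    unfold rden
    rw [h]
    simp only [zero_mul, zero_add, norm_zero]
    have : 0 < ‖v.2‖ := norm_pos_iff.2 h2
    positivity
  · have : 0 < ‖v.1‖ := norm_pos_iff.2 h
    unfold rden
    positivity

theorem row_ne_zero (g : SL2C) : ((g 1 0, g 1 1) : ℂ × ℂ) ≠ 0 := by
  intro h
  have h1 : g 1 0 = 0 := congrArg Prod.fst h
  have h2 : g 1 1 = 0 := congrArg Prod.snd h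
  have := det_eq g
  rw [h1, h2] at this
  simp at this

theorem den_pos' (g : SL2C) {p : Pt} (hp : p ∈ UH) : 0 < den g p :=
  rden_pos (row_ne_zero g) hp

theorem prim_ne_zero {R : Subring ℂ} {v : ℂ × ℂ} (hv : v ∈ Prim R) : v ≠ 0 := by
  obtain ⟨γ, _, rfl⟩ := hv
  exact row_ne_zero γ

theorem ofReal_normsq (z : ℂ) : ((‖z‖ ^ 2 : ℝ) : ℂ) = z * (starRingEnd ℂ) z := by
  rw [Complex.mul_conj, Complex.normSq_eq_norm_sq]

theorem rden_act (v : ℂ × ℂ) (g : SL2C) {p : Pt} (hp : p ∈ UH) :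
    rden v (act g p) * den g p = rden (rowMul v g) p := by
  have hD := den_pos' g hp
  have hdet := det_eq g
  obtain ⟨z, r⟩ := p
  set a := g 0 0
  set b := g 0 1
  set c := g 1 0
  set d := g 1 1
  obtain ⟨e, f⟩ := v
  set D := den g (z, r) with hDdef
  have hD0 : (D : ℂ) ≠ 0 := by exact_mod_cast hD.ne'
  have hDc : (D : ℂ) = (c * z + d) * (starRingEnd ℂ) (c * z + d)
      + c * (starRingEnd ℂ) c * (r : ℂ) ^ 2 := by
    rw [hDdef]
    unfold den
    simp only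
    push_cast
    rw [← Complex.ofReal_pow, ofReal_normsq, ← Complex.ofReal_pow ‖g 1 0‖, ofReal_normsq]
  -- both sides times D
  have key : ((rden (e, f) (act g (z, r)) * D : ℝ) : ℂ) * D
      = ((rden (rowMul (e, f) g) (z, r) : ℝ) : ℂ) * D := by
    set N := (a * z + b) * (starRingEnd ℂ) (c * z + d) + a * (starRingEnd ℂ) c * (r : ℂ) ^ 2
      with hN
    have h1 : act g (z, r) = (N / (D : ℂ), r / D) := rfl
    rw [h1]
    unfold rden rowMul
    simp only
    push_cast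
    rw [← Complex.ofReal_pow, ofReal_normsq, ← Complex.ofReal_pow ‖e‖, ofReal_normsq,
      ← Complex.ofReal_pow, ofReal_normsq, ← Complex.ofReal_pow ‖_‖, ofReal_normsq]
    have h2 : e * (N / (D : ℂ)) + f = (e * N + f * D) / D := by
      field_simp
    rw [h2]
    simp only [map_div₀, map_add, map_mul, Complex.conj_ofReal]
    have h3 : (e * N + f * ↑D) / ↑D *
        (((starRingEnd ℂ) e * (starRingEnd ℂ) N + (starRingEnd ℂ) f * ↑D) / ↑D) * (D : ℂ) * D
        = (e * N + f * ↑D) * ((starRingEnd ℂ) e * (starRingEnd ℂ) N + (starRingEnd ℂ) f * ↑D) := by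
      field_simp
    have h4 : e * (starRingEnd ℂ) e * ((r : ℂ) / D) ^ 2 * D * D
        = e * (starRingEnd ℂ) e * (r : ℂ) ^ 2 := by
      field_simp
    have hNc : (starRingEnd ℂ) N = ((starRingEnd ℂ) a * (starRingEnd ℂ) z + (starRingEnd ℂ) b)
        * (c * z + d) + (starRingEnd ℂ) a * c * (r : ℂ) ^ 2 := by
      rw [hN]
      simp only [map_add, map_mul, map_pow, Complex.conj_conj, Complex.conj_ofReal]
    have hdetc : (starRingEnd ℂ) a * (starRingEnd ℂ) d - (starRingEnd ℂ) b * (starRingEnd ℂ) c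
        = 1 := by
      have := congrArg (starRingEnd ℂ) hdet
      simpa only [map_sub, map_mul, map_one] using this
    have hDc' := hDc
    simp only [map_add, map_mul] at hDc'
    rw [add_mul, add_mul, h3, h4, hNc, hN]
    simp only [map_add, map_mul]
    rw [hDc']
    set a' := (starRingEnd ℂ) a
    set b' := (starRingEnd ℂ) b
    set c' := (starRingEnd ℂ) c
    set d' := (starRingEnd ℂ) d
    set e' := (starRingEnd ℂ) e
    set f' := (starRingEnd ℂ) f
    set z' := (starRingEnd ℂ) z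
    have hx : e = e * (a * d - b * c) := by rw [hdet, mul_one]
    have hx' : e' = e' * (a' * d' - b' * c') := by rw [hdetc, mul_one]
    have h5 : e * e' * (r : ℂ) ^ 2 = (e * (a * d - b * c)) * (e' * (a' * d' - b' * c'))
        * (r : ℂ) ^ 2 := by
      rw [← hx, ← hx']
    rw [h5]
    ring
  have := mul_right_cancel₀ hD0 key
  exact_mod_cast this

theorem uval_act (v : ℂ × ℂ) (g : SL2C) {p : Pt} (hp : p ∈ UH) :
    uval v (act g p) = uval (rowMul v g) p := by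
  have hD := den_pos' g hp
  have h := rden_act v g hp
  have hp2 : 0 < p.2 := hp
  rw [uval_eq, uval_eq, ← h]
  have h2 : (act g p).2 = p.2 / den g p := rfl
  rw [h2]
  field_simp

theorem act_mem' (g : SL2C) {p : Pt} (hp : p ∈ UH) : act g p ∈ UH :=
  div_pos hp (den_pos' g hp)

theorem trans_00 (x : ℂ) : (Pool.Agent.Helper10.Ram.trans x) 0 0 = 1 := rfl
theorem trans_01 (x : ℂ) : (Pool.Agent.Helper10.Ram.trans x) 0 1 = x := rfl
theorem trans_10 (x : ℂ) : (Pool.Agent.Helper10.Ram.trans x) 1 0 = 0 := rfl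
theorem trans_11 (x : ℂ) : (Pool.Agent.Helper10.Ram.trans x) 1 1 = 1 := rfl

theorem act_trans_mul (x : ℂ) (g : SL2C) {p : Pt} (hp : p ∈ UH) :
    act (trans x * g) p = ((act g p).1 + x, (act g p).2) := by
  have hD := den_pos' g hp
  have hrow : (trans x * g) 1 0 = g 1 0 ∧ (trans x * g) 1 1 = g 1 1 := by
    constructor <;> simp only [Matrix.SpecialLinearGroup.coe_mul, Matrix.mul_apply,
      Fin.sum_univ_two, trans_10, trans_11] <;> ring
  have hrow0 : (trans x * g) 0 0 = g 0 0 + x * g 1 0 ∧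
      (trans x * g) 0 1 = g 0 1 + x * g 1 1 := by
    constructor <;> simp only [Matrix.SpecialLinearGroup.coe_mul, Matrix.mul_apply,
      Fin.sum_univ_two, trans_00, trans_01] <;> ring
  have hden : den (trans x * g) p = den g p := by
    unfold den
    rw [hrow.1, hrow.2]
  have hD0 : (den g p : ℂ) ≠ 0 := by exact_mod_cast hD.ne'
  have hDc : (den g p : ℂ) = (g 1 0 * p.1 + g 1 1) * (starRingEnd ℂ) (g 1 0 * p.1 + g 1 1)
      + g 1 0 * (starRingEnd ℂ) (g 1 0) * (p.2 : ℂ) ^ 2 := by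
    unfold den
    push_cast
    rw [← Complex.ofReal_pow, ofReal_normsq, ← Complex.ofReal_pow ‖g 1 0‖, ofReal_normsq]
  unfold act
  rw [hden, hrow.1, hrow.2, hrow0.1, hrow0.2]
  simp only [Prod.mk.injEq, and_true]
  rw [div_add' _ _ _ hD0]
  congr 1
  rw [hDc]
  ring

end Pool.Agent.Helper99.Ram
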